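import Pool.Agent.Helper76.TW.Defs

/-!
# Strings of consecutive primes `p` such that `p + 2` is almost prime: statements (block A)

Main theorem (`StmtFN`): for all `m` and `q ≥ 1` there is `K₀` such that for every `K ≥ K₀` there is
`c > 0` such that for all `a` with `(a (a + 2), q) = 1` and all large `x`, among the `n` with
`s_n ≤ x` a proportion `≥ c` satisfies `s_n ≡ s_(n+1) ≡ .. ≡ s_(n+m) ≡ a` modulo `q`; here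
`s_0 < s_1 < ..` are the integers with the property `AT K` (primes `p` such that no prime `r` with
`r^K ≤ p` divides `p + 2`).

Structure.  Project TU (`Pool/Agent/Helper88/TU/Goals.lean`) with two changes.  (1) The label of a
point `h` comes with the condition that `n + h` and `n + h + 2` have no prime factor in `(y, z]`
(`R2 y z (n + h)`); so the density `om` is replaced by `om^2`, `gg y z k` by `gg y z (2 k)`, and the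
points must be separated (`Sep`).  (2) `n ∈ (x, 32 x]`, `z^E ≤ x < (z+1)^E`, `E = K`, in a class `b`
modulo a general `Q` (`Iq`); finally `Q = Qm q p₁ w`, `w` a small power of `log x`, `p₁` an
exceptional prime, and EVERY class `b` is used.  The weight kills the points `h ≤ Y`
(`Y = λ (log x)^2`) for which `b + h` and `b + h + 2` are prime to `Q` and `b + h` is not in the
class `a` modulo `q`; the number of the other points, times `om^2/E`, is a large constant.  The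
weighted number of the `j` with `AT K (n + j)` is bounded from below by `StmtLB2` (relative
equidistribution, as project CG) and by the lower bound `StmtLBB` without the weight, which comes
from block B (`Pool/Agent/Helper57/TW`, statement `StmtL2`, here an assumption).

In all packets: `Su E z x y` implies the facts in `Pool/Agent/Helper88/TU/Size.lean` (`size`,
`size_pow`, `size_gg`).
-/

set_option autoImplicit false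

open Finset Filter Topology

open scoped Classical

namespace Pool.Agent.Helper76.TW

open Pool.Agent.Helper88.PP (pr Rg om Sf SS uu vv ee LA VV QQ cost nc dd)
open Pool.Agent.Helper88.RR (gg ab TB nz Db VM)
open Pool.Agent.Helper88.GM (NI XI)
open Pool.Agent.Helper88.CG (tw pw th sg qE mE DS)
open Pool.Agent.Helper88.TU (Su AA EF hit)

/-! ## Part I: algebra -/

/-- PACKET TR2.  `GM.StmtTR` with a general condition `R` in place of `Rg y z`.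
Proof.  `Pool/Agent/Helper96/GM/TR.lean` word for word (`Rg y z` occurs only as an indicator; the
helper lemmas `vv_eq`, `ind`, `ind_mul` of `Pool/Agent/Helper93/PP/TR.lean` with `R` instead of
`Rg y z`). -/
def StmtTR2 : Prop := ∀ (ι : Type) [Fintype ι] [DecidableEq ι] (pt : ι → ℕ) (R : ℕ → Prop)
  (z X D K : ℕ) (N : Finset ℕ) (Y o δ C : ℝ) (ga : Finset ι → ℝ) (T : Finset (ι → ℕ))
  (c : (ι → ℕ) → ℝ) (al : ι → ℕ → ℝ) (BB : Finset (Finset ι)),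
  2 ≤ z → 0 ≤ Y → 0 ≤ o → 0 ≤ δ → 1 ≤ C → (∀ B ∈ BB, 0 ≤ ga B ∧ ga B ≤ o ^ B.card) →
  (∀ r ∈ T, ∀ i, r i = 0 ∨ r i ∈ SS z X) →
  (∀ r ∈ T, ∀ s ∈ T, ∀ i, r i = 1 → s i ≠ 0) →
  (∀ r ∈ T, (∏ i, max 1 (r i)) ^ 2 ≤ D) →
  (∀ r ∈ T, ∀ s ∈ T, (univ.filter (fun i => r i ≠ 0 ∨ s i ≠ 0)) ∈ BB) →
  (∀ B ∈ BB, B.card ≤ K) →
  (∀ i r, 0 ≤ al i r) → (∀ i, al i 0 ≤ 1) → (∀ r ∈ T, |c r| ≤ ∏ i, al i (r i)) →
  (∀ i, ∀ d ∈ SS z X, (d : ℝ) * ∑ r ∈ (SS z X).filter (fun r => d ∣ r), al i r ≤ C) →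
  (∀ d : ι → ℕ, (∀ i, d i = 0 ∨ Sf z (d i)) → ∏ i, max 1 (d i) ≤ D →
    (univ.filter (fun i => d i ≠ 0)) ∈ BB →
    ((∀ i j, i ≠ j → d i ≠ 0 → d j ≠ 0 → Nat.Coprime (d i) (d j)) →
      |((N.filter (fun n => ∀ i, d i ≠ 0 → d i ∣ n + pt i ∧ R (n + pt i))).card : ℝ)
        - Y * (ga (univ.filter (fun i => d i ≠ 0)) *
            ∏ i, (if d i = 0 then 1 else 1 / (d i : ℝ)))|
        ≤ δ * (Y * ∏ i, dd o (d i)))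
    ∧ (¬ (∀ i j, i ≠ j → d i ≠ 0 → d j ≠ 0 → Nat.Coprime (d i) (d j)) →
      (N.filter (fun n => ∀ i, d i ≠ 0 → d i ∣ n + pt i ∧ R (n + pt i))).card = 0)) →
  |∑ n ∈ N, (∑ r ∈ T, c r * ∏ i, vR R (r i) (n + pt i)) ^ 2
      - Y * ∑ r ∈ T, c r ^ 2 * (ga (univ.filter (fun i => r i ≠ 0)) *
          ∏ i, (if r i = 0 then 1 else (Nat.totient (r i) : ℝ)))|
    ≤ Y * (δ + 9 * K ^ 2 / z) *
      ∑ B ∈ BB, (o * (3 * C ^ 2 * ∑ e ∈ SS z (X ^ 2), (3 : ℝ) ^ e.primeFactors.card / e)) ^ B.card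

/-- PACKET WT2.  `CG.StmtWT` with a general condition `R` in place of `Rg y z`.
Proof.  `Pool/Agent/Helper67/CG/WT.lean` word for word. -/
def StmtWT2 : Prop := ∀ (ι : Type) [Fintype ι] [DecidableEq ι] (pt : ι → ℕ) (R : ℕ → Prop)
  (z X D K : ℕ) (N : Finset ℕ) (w : ℕ → ℝ) (C : ℝ) (G : (ι → ℕ) → ℝ) (T : Finset (ι → ℕ))
  (c : (ι → ℕ) → ℝ) (al : ι → ℕ → ℝ), 1 ≤ C →
  (∀ r ∈ T, ∀ i, r i = 0 ∨ r i ∈ SS z X) →
  (∀ r ∈ T, ∀ s ∈ T, ∀ i, r i = 1 → s i ≠ 0) →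
  (∀ r ∈ T, (∏ i, max 1 (r i)) ^ 2 ≤ D) →
  (∀ r ∈ T, ∀ s ∈ T, (univ.filter (fun i => r i ≠ 0 ∨ s i ≠ 0)).card ≤ K) →
  (∀ i r, 0 ≤ al i r) → (∀ i, al i 0 ≤ 1) → (∀ r ∈ T, |c r| ≤ ∏ i, al i (r i)) →
  (∀ i, ∀ d ∈ SS z X, (d : ℝ) * ∑ r ∈ (SS z X).filter (fun r => d ∣ r), al i r ≤ C) →
  |∑ n ∈ N, w n * (∑ r ∈ T, c r * ∏ i, vR R (r i) (n + pt i)) ^ 2
      - ∑ r ∈ T, c r ^ 2 * (G (fun i => sg (r i)) *
          ∏ i, (if r i = 0 then 1 else (Nat.totient (r i) : ℝ)))|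
    ≤ ∑ d ∈ (DS z D K : Finset (ι → ℕ)),
        (∏ i, (if d i = 0 then 1 else 3 * C ^ 2 * 3 ^ (d i).primeFactors.card)) *
        |∑ n ∈ N, w n * ∏ i, icR R (d i) (n + pt i)
          - G (fun i => sg (d i)) * ∏ i, (if d i = 0 then 1 else 1 / (d i : ℝ))|

/-! ## Part II: sieve and second moments without primes -/

/-- PACKET TLQ (counting).  `TU.StmtTL` for `Iq`.
Proof.  `Pool/Agent/Helper51/TU/TL.lean` with `u = x`, `v = 32 x`: `In` is used there only for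
`b < Q`, for `hpQ` (the primes dividing `Q` are `≤ y`) and for the lower bound of `XI`; now
`XQ x Q = 31 x/Q ≥ x^(19/20)`.  Uses `Pool.Agent.Helper10.TU.bh`, `Pool.Agent.Helper57.TU.bm`. -/
def StmtTLQ : Prop := ∃ c : ℝ, 0 < c ∧ ∃ E0 : ℕ, ∀ E z x y : ℕ, E0 ≤ E → Su E z x y →
  ∀ Q b : ℕ, Iq x y Q b → ∀ B : Finset ℕ, B ⊆ Icc 1 y → B.card ^ 2 ≤ E →
  ∀ d : ℕ → ℕ, (∀ i ∈ B, Sf z (d i)) → ∏ i ∈ B, d i ≤ z ^ (E / 4) →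
  ((∀ i ∈ B, ∀ j ∈ B, i ≠ j → Nat.Coprime (d i) (d j)) →
    |(((NQ x Q b).filter (fun n => ∀ i ∈ B, d i ∣ n + i ∧ Rg y z (n + i))).card : ℝ)
      - XQ x Q * (gg y z B.card * ∏ i ∈ B, (1 / (d i : ℝ)))|
      ≤ Real.exp (-(c * E)) * (XQ x Q * (gg y z B.card * ∏ i ∈ B, (1 / (d i : ℝ)))) ∧
    ∑ n ∈ (NQ x Q b).filter (fun n => ∀ i ∈ B, d i ∣ n + i), EF E y z (hit y z B n)
      ≤ Real.exp (-(c * E)) * (XQ x Q * (gg y z B.card * ∏ i ∈ B, (1 / (d i : ℝ)))))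
  ∧ (¬ (∀ i ∈ B, ∀ j ∈ B, i ≠ j → Nat.Coprime (d i) (d j)) →
    ((NQ x Q b).filter (fun n => ∀ i ∈ B, d i ∣ n + i ∧ Rg y z (n + i))).card = 0)

/-- PACKET TG2 (second moment; may assume TR2, TLQ).  As `Pool/Agent/Helper16/TU/TG.lean`, with TR2
(`R = R2 y z`, `o = om y z ^ 2`, `ga B = gg y z (2 #B)`).  The count for the divisor labels `d` on
`P`, with support `B`: `R2` at the points of `B` means `Rg` at the points of `B ∪ (B + 2)`, which are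
`2 #B` different points of `[1, y]` by `Sep`; use TLQ with the label `1` at `i + 2`
(`Pool.Agent.Helper16.TU.tlg` is the model; `i + 2 ∉ B`).  If the `d i` are coprime, the labels on
`B ∪ (B + 2)` are; if not, the count is `0`.  `#B ≤ 2K`, so `#(B ∪ (B + 2)) ≤ 4K` and
`(4K)^2 ≤ E` because `K^3 ≤ E` and `E ≥ 4096`.  `gg y z (2k) ≤ (om^2)^k` from `size_gg`. -/
def StmtTG2 : Prop := ∃ c : ℝ, 0 < c ∧ ∃ E0 : ℕ, ∀ E z x y : ℕ, E0 ≤ E → Su E z x y →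
  ∀ Q b : ℕ, Iq x y Q b → ∀ m q K w : ℕ, 1 ≤ m → q * m ≤ E / 16 → 1 ≤ VV z m (q * m) →
  K ^ 3 ≤ E → E / 32 ≤ w → w ≤ E / 16 → ∀ P : Finset ℕ, Sep y P →
  (P.card : ℝ) * om y z ^ 2 ≤ (E : ℝ) ^ 2 →
  ∀ (T : Finset (P → ℕ)) (a : (P → ℕ) → ℝ) (F G : Finset P), F.card ≤ 2 → G.card ≤ 2 →
  Disjoint F G →
  (∀ r ∈ T, ∀ i, i ∉ F → i ∉ G → (r i = 0 ∨ r i ∈ LA z m (q * m))) →
  (∀ r ∈ T, ∀ i ∈ F, r i ∈ SS z (z ^ w)) →
  (∀ r ∈ T, ∀ i ∈ G, r i = 1 ∨ r i ∈ LA z m (q * m)) →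
  (∀ r ∈ T, nz r ≤ K) →
  (∀ r ∈ T, ∏ i, max 1 (r i) ≤ z ^ (2 * (E / 16))) →
  (∀ r ∈ T, |a r| ≤ ∏ i, (if i ∈ F then 1 / (VM w z * (Nat.totient (r i) : ℝ)) else
    if i ∈ G then (if r i = 1 then 1 else ab m q z (r i)) else
    if r i = 0 then 1 else ab m q z (r i))) →
  |∑ n ∈ NQ x Q b, (∑ r ∈ T, a r * ∏ i, vR (R2 y z) (r i) (n + (i : ℕ))) ^ 2
      - XQ x Q * ∑ r ∈ T, a r ^ 2 *
        (gg y z (2 * nz r) * ∏ i, (if r i = 0 then 1 else (Nat.totient (r i) : ℝ)))|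
    ≤ Real.exp (-(c * E)) * (om y z ^ 2) ^ (F.card + G.card) * XQ x Q

/-- PACKET S2 (mean square; may assume TG2).  As `Pool/Agent/Helper55/TU/S1.lean`. -/
def StmtS2 : Prop := ∃ c : ℝ, 0 < c ∧ ∃ E0 : ℕ, ∀ E z x y : ℕ, E0 ≤ E → Su E z x y →
  ∀ Q b : ℕ, Iq x y Q b → ∀ m q : ℕ, 1 ≤ m → q * m ≤ E / 16 → 1 ≤ VV z m (q * m) →
  (E / 16 / m + 1) ^ 3 ≤ E →
  ∀ P : Finset ℕ, Sep y P → (P.card : ℝ) * om y z ^ 2 ≤ (E : ℝ) ^ 2 →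
    1 ≤ D2 m q (E / 16) z y P ∧
    |∑ n ∈ NQ x Q b, W2 m q (E / 16) z y P n ^ 2 - XQ x Q * D2 m q (E / 16) z y P|
      ≤ Real.exp (-(c * E)) * XQ x Q

/-- PACKET GT2 (the mean square of `G2`; may assume TG2).  As `Pool/Agent/Helper91/TU/GT.lean`:
TG2 with `F = {h}`, `w = E/16`, `G = ∅`. -/
def StmtGT2 : Prop := ∃ c : ℝ, 0 < c ∧ ∃ E0 : ℕ, ∀ E z x y : ℕ, E0 ≤ E → Su E z x y →
  ∀ Q b : ℕ, Iq x y Q b → ∀ m q : ℕ, 1 ≤ m → q * m ≤ E / 16 → 1 ≤ VV z m (q * m) →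
  (E / 16 / m + 1) ^ 3 ≤ E →
  ∀ P : Finset ℕ, Sep y P → (P.card : ℝ) * om y z ^ 2 ≤ (E : ℝ) ^ 2 → ∀ h : P,
    ∑ n ∈ NQ x Q b, G2 m q (E / 16) z y P h n ^ 2 ≤ XQ x Q * om y z ^ 2 *
      (∑ r ∈ (TB m q (E / 16) z P).filter (fun r => E / 16 < cost z r + q * m), wb2 m q y z r
        + Real.exp (-(c * E)))

/-- PACKET KQ2 (the points of `P` with `AT` are killed; may assume S2, GT2).  As
`Pool/Agent/Helper88/TU/KQ.lean`.  (1) If `n + h` is a prime, `n + h > x ≥ z^E` and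
`Rg y z (n + h + 2)`, then `W2 .. P n = G2 .. P h n` (`RR.StmtPW`, proved in the RR files: the same
proof, as `R2 y z (n + h)` holds and `uu s (n + h) = 1` for the labels `s < z^M`).  (2) `RR.StmtRA`
(`Pool/Agent/Helper28/RR/RA.lean`) with `g k = gg y z (2 k)`, `o = om y z ^ 2`:
`gg y z (2k + 2) ≤ om^2 gg y z (2k)` for `2k + 2 ≤ y`
(`(1 - (2k+2)/p) ≤ (1 - 1/p)^2 (1 - 2k/p)`), and `2 #P ≤ y` by `Sep`. -/
def StmtKQ2 : Prop := ∃ c : ℝ, 0 < c ∧ ∀ η : ℝ, 0 < η → ∃ E0 : ℕ, ∀ E z x y : ℕ, E0 ≤ E →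
  Su E z x y → ∀ Q b : ℕ, Iq x y Q b → ∀ P : Finset ℕ, Sep y P →
  (P.card : ℝ) * om y z ^ 2 ≤ c * (E * Real.log E) →
  ∑ n ∈ NQ x Q b, Wt2 E z y P n ^ 2 *
      ((P.filter (fun h => (n + h).Prime ∧ Rg y z (n + h + 2))).card : ℝ)
    ≤ η * (XQ x Q * Dt2 E z y P)

/-- PACKET BT2 (upper bounds for `AT`, with and without the weight, at one and two points; may
assume TG2).  First part as `Pool/Agent/Helper80/TU/BT.lean` (`P = F = {j}`, `w = E/32`; the factor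
is `om^2` because the label at `j` contains `R2 y z (n + j)`).  Second and third part as
`Pool/Agent/Helper46/TU/PB.lean` (`F = {j}` resp. `{j, j'}`). -/
def StmtBT2 : Prop := ∃ C : ℝ, 1 ≤ C ∧ ∃ E0 : ℕ, ∀ E z x y : ℕ, E0 ≤ E → Su E z x y →
  ∀ Q b : ℕ, Iq x y Q b →
  (∀ j : ℕ, 1 ≤ j → j + 2 ≤ y →
    (((NQ x Q b).filter (fun n => (n + j).Prime ∧ Rg y z (n + j + 2))).card : ℝ)
      ≤ C * (XQ x Q * (om y z ^ 2 / E))) ∧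
  (∀ P : Finset ℕ, (P.card : ℝ) * om y z ^ 2 ≤ (E : ℝ) ^ 2 / 2 → ∀ j : ℕ, j ∉ P →
    Sep y (insert j P) →
    ∑ n ∈ (NQ x Q b).filter (fun n => (n + j).Prime ∧ Rg y z (n + j + 2)), Wt2 E z y P n ^ 2
      ≤ C * (XQ x Q * Dt2 E z y P) * (om y z ^ 2 / E)) ∧
  (∀ P : Finset ℕ, (P.card : ℝ) * om y z ^ 2 ≤ (E : ℝ) ^ 2 / 2 → ∀ j j' : ℕ, j ∉ P → j' ∉ P →
    j ≠ j' → Sep y (insert j (insert j' P)) →
    ∑ n ∈ (NQ x Q b).filter (fun n => ((n + j).Prime ∧ Rg y z (n + j + 2)) ∧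
        ((n + j').Prime ∧ Rg y z (n + j' + 2))), Wt2 E z y P n ^ 2
      ≤ C * (XQ x Q * Dt2 E z y P) * (om y z ^ 2 / E) ^ 2)

/-- PACKET CO2 (concentration; may assume TG2).  As `Pool/Agent/Helper70/TU/CO.lean`: `F = {j}`,
`w = E/32`, `G = {i, i'}`, `{i}` or `∅` (labels `1` on `G`), `om` replaced by `o = om^2`; with
`g_k = gg y z (2k)`: `g_{k+1} ≤ o g_k`, and `g_{k+1} ≥ o g_k (1 - C (k+1)/y)` for `k ≤ 2`
(`(1 - 4/p)/((1 - 1/p)^2 (1 - 2/p)) ≥ 1 - 10/p^2` and `∑_{p > y} 1/p^2 ≤ 2/y`). -/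
def StmtCO2 : Prop := ∃ C : ℝ, 0 < C ∧ ∃ E0 : ℕ, ∀ E z x y : ℕ, E0 ≤ E → Su E z x y →
  ∀ Q b : ℕ, Iq x y Q b → ∀ P : Finset ℕ, (P.card : ℝ) * om y z ^ 2 ≤ (E : ℝ) ^ 2 / 2 →
  ∀ j : ℕ, j ∉ P → Sep y (insert j P) →
  ∑ n ∈ (NQ x Q b).filter (fun n => (n + j).Prime ∧ Rg y z (n + j + 2)),
      (((P.filter (fun h => R2 y z (n + h))).card : ℝ) - P.card * om y z ^ 2) ^ 2
    ≤ C * (XQ x Q * (om y z ^ 2 / E)) * (P.card * om y z ^ 2 + 1)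

/-- PACKET RC2 (the number of rough points under the weight; may assume TG2).  First part as
`Pool/Agent/Helper94/TU/RC.lean` (`F = ∅`, `G = {i}`).  Second part: the same on `P ∪ {j}` with
`G = {i, j}` (label `1` at `j`): main term `gg (2 #(supp r ∪ {i, j}))`, at most `om^4 gg(2 nz r)` if
`r i = 0`, `om^2 gg(2 nz r)` if `r i ≠ 0`; the errors are at most
`#P exp(-cE) om^4 XI ≤ E^2 exp(-cE) om^2 XI`. -/
def StmtRC2 : Prop := ∃ C : ℝ, 0 < C ∧ ∃ E0 : ℕ, ∀ E z x y : ℕ, E0 ≤ E → Su E z x y →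
  ∀ Q b : ℕ, Iq x y Q b → ∀ P : Finset ℕ, (P.card : ℝ) * om y z ^ 2 ≤ (E : ℝ) ^ 2 / 2 →
  (Sep y P → ∑ n ∈ NQ x Q b, Wt2 E z y P n ^ 2 * ((P.filter (fun h => R2 y z (n + h))).card : ℝ)
    ≤ C * (XQ x Q * Dt2 E z y P) * (P.card * om y z ^ 2 + E)) ∧
  (∀ j : ℕ, j ∉ P → Sep y (insert j P) →
    ∑ n ∈ (NQ x Q b).filter (fun n => R2 y z (n + j)),
        Wt2 E z y P n ^ 2 * ((P.filter (fun h => R2 y z (n + h))).card : ℝ)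
      ≤ C * (XQ x Q * Dt2 E z y P) * om y z ^ 2 * (P.card * om y z ^ 2 + E))

/-- PACKET SU2 (a bound for the weight at an integer with few rough points).  As
`Pool/Agent/Helper80/TU/SU.lean` (`n + i ≤ 33 x ≤ (z+1)^(E+1)`; `vR (R2 y z) s m = 0` or
`vv y z s m`). -/
def StmtSU2 : Prop := ∃ E0 : ℕ, ∀ E z x y : ℕ, E0 ≤ E → Su E z x y → ∀ m q : ℕ, 1 ≤ m →
  q * m ≤ E / 16 → 1 ≤ VV z m (q * m) → (E / 16 / m + 1) ^ 3 ≤ E →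
  ∀ P : Finset ℕ, P ⊆ Icc 1 y → ∀ n : ℕ, n ≤ 32 * x →
    (P.filter (fun h => R2 y z (n + h))).card ≤ E ^ 3 →
    W2 m q (E / 16) z y P n ^ 2 ≤ Real.exp ((E : ℝ) ^ 2 / 2)

/-- PACKET CM2 (combinatorics).  As `Pool/Agent/Helper74/CG/CM.lean` with `o = om^2`
(`gg y z (2k) ≤ o^k` for `2k ≤ y`). -/
def StmtCM2 : Prop := ∀ η : ℝ, 0 < η → ∃ E0 : ℕ, ∀ E z y : ℕ, E0 ≤ E → 2 ≤ z → E ≤ y →
  ∀ P S : Finset ℕ, S ⊆ P →
  ((P.card : ℝ) * om y z ^ 2 ≤ √E ∨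
    (P.card : ℝ) * om y z ^ 2 * (1 - η / (4 * ((E / 16 / mE E : ℕ) + 1))) ≤ S.card) →
  (1 - η) * Dt2 E z y P ≤
    ∑ r ∈ TB (mE E) (qE E) (E / 16) z P, (if ∀ i, r i ≠ 0 → (i : ℕ) ∈ S then
      ∏ i : P, (if r i = 0 then 1 else ab (mE E) (qE E) z (r i) ^ 2 * (Nat.totient (r i) : ℝ))
      else 0)

/-! ## Part III: primes under the weight -/

/-- PACKET EB2 (the conditions given by `d` reduced to progressions; may assume TLQ).  As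
`Pool/Agent/Helper60/TU/EB.lean`; `w = y` in `CJ`, so the weight is
`pw (32x) (n+j) [n+j+2 has no prime factor in (y, z]]`.  `B = {i : d i ≠ 0}`; the points are
`V = B ∪ (B + 2) ∪ {j + 2}`, `2 nz d + 1` different points of `[1, y]`, not containing `j` (`Sep`);
the product of the indicators is `[d i ∣ n + i] [hit y z V n = ∅]`.  Replace
`[hit y z V n = ∅]` by `∑_{A ∈ AA, A ⊆ hit} (-1)^#A` (`StmtBH`); the error is at most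
`∑_{n : d i ∣ n + i} EF (hit y z (V ∪ {j}) n)`, for which see TLQ (`2 nz d + 2` points, label `1` at
`i + 2`, `j + 2`, `j`).  For given `A` and `f : A → V` the conditions `n ≡ b (Q)`, `p ∣ n + f p`,
`d i ∣ n + i` mean that `n + j` is in a class modulo `Q (∏ A) D`, prime to the modulus if
`gcd(b + j, Q) = 1` (`p > y` does not divide `j - f p ≠ 0`; otherwise both `CJ` are zero), and
`pw (32x) (n + j) ≠ 0` only for `2x < n + j < 32x`, so that the sum is a `th (32x)`. -/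
def StmtEB2 : Prop := ∃ c : ℝ, 0 < c ∧ ∃ E0 : ℕ, ∀ E z x y : ℕ, E0 ≤ E → Su E z x y →
  ∀ Q b : ℕ, Iq x y Q b → ∀ P : Finset ℕ, ∀ j : ℕ, j ∉ P → Sep y (insert j P) → ∀ d : P → ℕ,
  (∀ i, d i = 0 ∨ Sf z (d i)) →
  (∀ i i', i ≠ i' → d i ≠ 0 → d i' ≠ 0 → Nat.Coprime (d i) (d i')) →
  ∏ i, max 1 (d i) ≤ z ^ (2 * (E / 16)) → (2 * nz d + 2) ^ 2 ≤ E →
  ∃ a : Finset ℕ → ℕ,
    (∀ A ∈ AA E y z, Nat.Coprime (a A) (Q * (∏ p ∈ A, p) * ∏ i, max 1 (d i))) ∧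
    |CJ x y y z j (NQ x Q b) d
        - CJ x y y z j (NQ x Q b) (fun i => sg (d i)) /
          (Nat.totient (∏ i, max 1 (d i)) : ℝ)|
      ≤ ∑ A ∈ AA E y z, ((2 * nz d + 1 : ℕ) : ℝ) ^ A.card *
          |th (32 * x) (Q * (∏ p ∈ A, p) * ∏ i, max 1 (d i)) (a A)
            - th (32 * x) (Q * ∏ p ∈ A, p) (a A) / (Nat.totient (∏ i, max 1 (d i)) : ℝ)|
        + Real.exp (-(c * E)) * (XQ x Q * gg y z (2 * nz d + 2) /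
            (Nat.totient (∏ i, max 1 (d i)) : ℝ))

/-- Relative equidistribution of the primes (proved in block B).  As `CG.StmtTE`, for all `z`. -/
def StmtRT : Prop := ∃ A x0 : ℕ, ∀ x k z R L : ℕ, x0 ≤ x → 1 ≤ k → 2 ≤ z →
  (∀ p : ℕ, p.Prime → p ∣ k → p ≤ z) → 1 ≤ L → (k * R) ^ 4 ≤ x →
  ∀ a : ℕ → ℕ, (∀ D ∈ SS z (R + 1), Nat.Coprime (a D) (k * D)) →
  ∑ D ∈ SS z (R + 1), (L : ℝ) ^ D.primeFactors.card *
      |th x (k * D) (a D) - th x k (a D) / (Nat.totient D : ℝ)|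
    ≤ x / k * Real.log x ^ (A * (L + 1)) * (1 / z + (x : ℝ) ^ (-(1 / 50) : ℝ))

/-- PACKET ER2 (the error term of WT2, for `w = y`; may assume TLQ, EB2, RT).  As
`Pool/Agent/Helper46/TU/ER.lean`, `ERa.lean`, with RT (`x` replaced by `32x`, `R = z^(2(E/16))`,
`k = Q ∏A`, `L = 3K..`) instead of TE.  `(k R)^4 ≤ x`: `Q^4 ≤ x^(1/5)`, `(∏A)^4 ≤ x^(1/8)`,
`R^4 ≤ x^(1/2)`; `(log x)^(A (L+1)) ≤ z^(1/100)` by `size_pow` (`L ≤ C E^(1/3)`).  Last step: for the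
supports of size `k`: `#P^k/k! gg (2k + 2) ≤ om^2 (#P om^2)^k/k!`. -/
def StmtER2 : Prop := ∀ C : ℝ, 1 ≤ C → ∃ c : ℝ, 0 < c ∧ ∃ E0 : ℕ, ∀ E z x y : ℕ, E0 ≤ E →
  Su E z x y → ∀ Q b : ℕ, Iq x y Q b → ∀ K : ℕ, K ^ 3 ≤ E → ∀ P : Finset ℕ,
  (P.card : ℝ) * om y z ^ 2 ≤ (E : ℝ) ^ 2 → ∀ j : ℕ, j ∉ P → Sep y (insert j P) →
  ∑ d ∈ (DS z (z ^ (2 * (E / 16))) K : Finset (P → ℕ)),
      (∏ i, (if d i = 0 then 1 else 3 * C ^ 2 * 3 ^ (d i).primeFactors.card)) *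
      |CJ x y y z j (NQ x Q b) d
        - CJ x y y z j (NQ x Q b) (fun i => sg (d i)) *
          ∏ i, (if d i = 0 then 1 else 1 / (d i : ℝ))|
    ≤ Real.exp (-(c * E)) * (om y z ^ 2 * XQ x Q)

/-- PACKET ER3 (the same for `w ≤ y`; may assume TLQ, ER2).
Proof.  `Rg w z = Rg w y ∧ Rg y z`.  Let `H(n)` be the set of the `p ∈ pr w y` with `p ∣ n + j + 2`;
`|[H(n) = ∅] - ∑_{A ⊆ H(n), #A ≤ E} (-1)^#A| ≤ #{A ⊆ H(n) : #A = E + 1}` (Bonferroni).  The `n ∈ NQ x Q b`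
with `∏A ∣ n + j + 2` are `NQ x (Q ∏A) b_A` (`A ⊆ pr w y`, `Q` prime to `∏A`; `XQ x (Q ∏A) = XQ x Q/∏A`;
`Iq x y (Q ∏A) b_A` because `Q^40 ≤ x` and `∏A ≤ y^(E+1)`, `y^(40(E+1)) ≤ x` for `x ≥ x0(E)`).  Let
`Δ_A(d)` be the difference in ER2 for `Q ∏A`, `b_A`.  Then the difference for `d` is at most
`∑_{#A ≤ E+1} |Δ_A(d)| + 2 ∑_{#A = E+1} CJ_A (sg d) ∏ 1/d_i`.  First part: ER2 for every `A`,
`∑_A 1/∏A ≤ exp(L)`, `L = ∑_{w < p ≤ y} 1/p ≤ log D + C` (`Pool.Agent.Helper69.LG.me`).  Second part: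
`CJ_A (sg d) ≤ #{n ∈ NQ x (Q ∏A) b_A : R2 y z (n + i), d i ≠ 0, R2 y z (n + j)}
≤ 2 XQ x (Q ∏A) gg y z (2 nz d + 2)` (TLQ with all labels `1`), `∑_{#A = E+1} 1/∏A ≤ L^(E+1)/(E+1)!
≤ exp(-E)` for `E ≥ E0(D)`, and the sum over `d` of the weights over `∏ d_i`, times
`gg y z (2 nz d + 2)`, is at most `om^2 exp(C K log E)` as at the end of ER2. -/
def StmtER3 : Prop := ∀ C : ℝ, 1 ≤ C → ∀ D : ℕ, ∃ c : ℝ, 0 < c ∧ ∃ E0 : ℕ, ∀ E : ℕ, E0 ≤ E →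
  ∃ x0 : ℕ, ∀ z x y w : ℕ, x0 ≤ x → Su E z x y → w ≤ y → y ≤ w ^ D → ∀ Q b : ℕ, Iq x w Q b →
  Q ^ 40 ≤ x → ∀ K : ℕ, K ^ 3 ≤ E → ∀ P : Finset ℕ,
  (P.card : ℝ) * om y z ^ 2 ≤ (E : ℝ) ^ 2 → ∀ j : ℕ, j ∉ P → Sep y (insert j P) →
  ∑ d ∈ (DS z (z ^ (2 * (E / 16))) K : Finset (P → ℕ)),
      (∏ i, (if d i = 0 then 1 else 3 * C ^ 2 * 3 ^ (d i).primeFactors.card)) *
      |CJ x w y z j (NQ x Q b) d
        - CJ x w y z j (NQ x Q b) (fun i => sg (d i)) *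
          ∏ i, (if d i = 0 then 1 else 1 / (d i : ℝ))|
    ≤ Real.exp (-(c * E)) * (om y z ^ 2 * XQ x Q)

/-- PACKET LB2 (lower bound under the weight; may assume WT2, ER3, CO2, CM2).  As
`Pool/Agent/Helper32/TU/LB.lean` (which follows `Pool/Agent/Helper42/CG/LB.lean`): WT2 with
`R = R2 y z`, `w n = pj x w z j n`, `G d = CJ d`, `T = TB`.  `0 ≤ pj ≤ 1`, and `pj x w z j n ≠ 0`
implies that `n + j` is a prime and `Rg y z (n + j + 2)` (`w ≤ y`), which is what CO2 needs. -/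
def StmtLB2 : Prop := ∀ η : ℝ, 0 < η → ∀ D : ℕ, ∃ E0 : ℕ, ∀ E : ℕ, E0 ≤ E → ∃ x0 : ℕ,
  ∀ z x y w : ℕ, x0 ≤ x → Su E z x y → w ≤ y → y ≤ w ^ D → ∀ Q b : ℕ, Iq x w Q b →
  Q ^ 40 ≤ x → ∀ P : Finset ℕ, (P.card : ℝ) * om y z ^ 2 ≤ (E : ℝ) ^ 2 / 2 → ∀ j : ℕ, j ∉ P →
  Sep y (insert j P) →
  Dt2 E z y P * ((1 - η) * (∑ n ∈ NQ x Q b, pj x w z j n)
      - η * (XQ x Q * (om y z ^ 2 / E)))
    ≤ ∑ n ∈ NQ x Q b, pj x w z j n * Wt2 E z y P n ^ 2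

/-- PACKET EX2 (prime factors of `n + j + 2` in `(z, 4z]`; may assume TLQ, RC2, SU2).
Proof.  The `n` with more than `E^3` points `h ∈ P` with `R2 y z (n + h)`: RC2, second part, gives
`C X Dt2 om^2 (E log E + E)/E^3 ≤ (η/2) X Dt2 om^2/E`.  The others: `Wt2^2 ≤ exp(E^2/2)` (SU2 with
`m = mE E`, `q = qE E`, conditions from `Pool.Agent.Helper88.CG.vp`), and their number is at most
`∑_{p ∈ pr z (4z)} #{n : R2 y z (n + j), p ∣ n + j + 2} ≤ ∑_p 2 X gg y z 2/p` (TLQ with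
`B = {j, j + 2}`, labels `1` and `p`), `≤ C X om^2/log z` (`∑_{z < p ≤ 4z} 1/p ≤ C/log z` by Chebyshev);
`exp(E^2/2) C/log z ≤ η/(2E)` for `x ≥ x0(E)`, and `1 ≤ Dt2` (the empty label function has
`wb2 = 1`). -/
def StmtEX2 : Prop := ∀ η : ℝ, 0 < η → ∃ E0 : ℕ, ∀ E : ℕ, E0 ≤ E → ∃ x0 : ℕ, ∀ z x y : ℕ,
  x0 ≤ x → Su E z x y → ∀ Q b : ℕ, Iq x y Q b → ∀ P : Finset ℕ,
  (P.card : ℝ) * om y z ^ 2 ≤ E * Real.log E → ∀ j : ℕ, j ∉ P → Sep y (insert j P) →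
  ∑ n ∈ (NQ x Q b).filter (fun n => R2 y z (n + j) ∧ ∃ p ∈ pr z (4 * z), p ∣ n + j + 2),
      Wt2 E z y P n ^ 2
    ≤ η * (XQ x Q * Dt2 E z y P * (om y z ^ 2 / E))

/-! ## Part IV: the points of the window -/

/-- PACKET PC (fundamental lemma in dimension 2).
Proof.  Let `E₁ ≥ 4` be at least the `E0` of `TU.StmtBM`, `W₀ = E₁^2`, and `W₁` large
(`exp E₁ ≤ W₁`).  `TU.StmtBH` for `(E₁, W₀, w)` and `S(h) = {p ∈ pr W₀ w : h ≡ c p or h ≡ c' p}`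
(`Pool.Agent.Helper10.TU.bh`); for `A ⊆ pr W₀ w` the `h ≡ h0 (M)` of `(t, t + H]` with `A ⊆ S(h)` are
`2^#A` classes modulo `M ∏A`: `2^#A (H/(M ∏A) + θ)`.  `TU.StmtBM` with `k = 2`
(`Pool.Agent.Helper57.TU.bm`): the main terms are `(H/M) gg W₀ w 2 (1 ± 2 exp(-E₁))`, the errors
at most `2 (w^(E₁/32))^2 + 2 w (w^(E₁/32))^2` (as `sum_hit`, `sum_pow_le` in
`Pool/Agent/Helper51/TU/TL.lean`), and `gg W₀ w 2 ≥ 1/w`; `D₀ = E₁/16 + 4`. -/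
def StmtPC : Prop := ∃ W₀ W₁ D₀ : ℕ, 4 ≤ W₀ ∧ W₀ ≤ W₁ ∧ ∀ (w H M t h0 : ℕ) (c c' : ℕ → ℕ),
  W₁ ≤ w → 1 ≤ M → (∀ p ∈ pr W₀ w, ¬ p ∣ M ∧ ¬ c p ≡ c' p [MOD p]) → M * w ^ D₀ ≤ H →
  (H : ℝ) / M * gg W₀ w 2 ≤ 2 * (((Ioc t (t + H)).filter (fun h => h ≡ h0 [MOD M] ∧
      ∀ p ∈ pr W₀ w, ¬ h ≡ c p [MOD p] ∧ ¬ h ≡ c' p [MOD p])).card : ℝ) ∧
  (((Ioc t (t + H)).filter (fun h => h ≡ h0 [MOD M] ∧
      ∀ p ∈ pr W₀ w, ¬ h ≡ c p [MOD p] ∧ ¬ h ≡ c' p [MOD p])).card : ℝ)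
    ≤ 2 * ((H : ℝ) / M * gg W₀ w 2)

/-- PACKET JP (the points of the window in every class `b`; may assume PC).
Proof.  `gg W₀ w 2` is between constants times `(log w)^(-2)` (`gg ≤ om^2`, `gg ≥ c om^2`,
`Pool.Agent.Helper37.PP.mp`, `Pool.Agent.Helper88.CR.om_lower`).  Lower bound: `M` is `q` times the
primes `p ≤ W₀`, `p ∤ q`; `h0` with `b + h0 ≡ a (q)` and `b + h0 ≡ -1 (p)` for the other `p ≤ W₀`
(then `b + h0` and `b + h0 + 2` are prime to `p`; for `p ∣ q` because `(a (a+2), q) = 1`); `c p ≡ -b`,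
`c' p ≡ -b - 2`; the condition at `p₁` is harmless here; `W ≥ W₁, q, ..`, and `M w^D₀ ≤ w^(D₀+1) ≤ H`.
Upper bound: `M = 1`; all `p ∈ pr W₀ w` except `p₁` divide `Q`.  If `p₁ ∈ pr W₀ w`: for `i < p₁` use
PC with `c p₁ = i`, `c' p₁ = i + 2`; every `h` is counted for `p₁ - 2` of the `i`, so the number
is at most `(p₁/(p₁ - 2)) 2 H gg W₀ w 2`. -/
def StmtJP : Prop := ∀ q a : ℕ, 1 ≤ q → Nat.Coprime (a * (a + 2)) q →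
  ∃ (D₀ W : ℕ) (c C : ℝ), 0 < c ∧ ∀ w p₁ b H : ℕ, W ≤ w → p₁.Prime → 5 ≤ p₁ → ¬ p₁ ∣ q →
  w ^ D₀ ≤ H →
  c * (H / Real.log w ^ 2) ≤ (((Icc 1 H).filter (fun h => b + h ≡ a [MOD q] ∧
      Nat.Coprime (b + h) (Qm q p₁ w) ∧ Nat.Coprime (b + h + 2) (Qm q p₁ w))).card : ℝ) ∧
  (((Icc 1 H).filter (fun h => Nat.Coprime (b + h) (Qm q p₁ w) ∧
      Nat.Coprime (b + h + 2) (Qm q p₁ w))).card : ℝ) ≤ C * (H / Real.log w ^ 2)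

/-- PACKET SB (upper bound for the number of the `p` with `AT K`; may assume PC).
Proof.  `w = ⌊x^(1/(2 K (D₀ + 1)))⌋` (or any `w` with `w^(2K) ≤ x`, `w^(2 D₀) ≤ x` and
`log w ≥ c log x`), `s = Nat.sqrt x`.  The `p ≤ s` are at most `√x`; for `p > s` with `AT K p`:
`p > w`, so `p ≢ 0`, and `r^K ≤ w^K ≤ s < p` for the primes `r ≤ w`, so `p ≢ -2` modulo `r`.  PC with
`M = 1`, `t = 0`, `H = x`, `c = 0`, `c' r = r - 2`. -/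
def StmtSB : Prop := ∀ K : ℕ, 1 ≤ K → ∃ (C : ℝ) (x0 : ℕ), ∀ x : ℕ, x0 ≤ x →
  (((Icc 1 x).filter (fun p => AT K p)).card : ℝ) ≤ C * (x / Real.log x ^ 2)

/-! ## Part V: the conclusion -/

/-- The lower bound without the weight (the result of block B).  `p₁` is an exceptional prime; `c` does
not depend on `P₀`. -/
def StmtL2 : Prop := ∀ D q : ℕ, 1 ≤ q → ∃ c : ℝ, 0 < c ∧ ∀ P₀ : ℕ, ∃ E0 : ℕ, ∀ E : ℕ, E0 ≤ E →
  ∃ x0 : ℕ, ∀ x : ℕ, x0 ≤ x → ∃ p₁ : ℕ, p₁.Prime ∧ P₀ ≤ p₁ ∧ ∀ z y w : ℕ, Su E z x y →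
  (w : ℝ) ^ 10 ≤ Real.log x → Real.log x ≤ (w : ℝ) ^ D →
  ∀ a : ℕ, Nat.Coprime a (Qm q p₁ w) → Nat.Coprime (a + 2) (Qm q p₁ w) →
  c * (x / ((Nat.totient (Qm q p₁ w) : ℝ) * Real.log x) * om y z)
    ≤ ∑ m ∈ (Icc 1 (32 * x)).filter (fun m => m ≡ a [MOD Qm q p₁ w] ∧
        ∀ p ∈ pr w z, p ≠ p₁ → ¬ p ∣ m + 2), pw (32 * x) m

/-- PACKET LBB (may assume L2, BT2).
Proof.  `m = n + j`: `∑_{n ∈ NQ x Q b, p ∤ n + j + 2 for p ∈ pr w z, p ≠ p₁} pw (32x) (n + j)` is the sum in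
L2 with `a = b + j` (`pw (32x) m ≠ 0` only for `2x < m < 32x`, `j ≤ y ≤ x`).  If `p₁ ∉ pr w z`, this is
the sum of `pj`.  Otherwise subtract the `n` with `p₁ ∣ n + j + 2`.  (i) `w < p₁ ≤ y`: these `n` are in
`NQ x (Q p₁) b'` for one `b'`, `pw ≤ 1`, `n + j` is prime and `Rg y z (n + j + 2)`: BT2, first part, gives
`≤ C (XQ x Q/p₁) om^2/E`, and `p₁ > w → ∞`.  (ii) `y < p₁ ≤ z`: at most
`C x/(φ(Q) p₁ log x)` primes (Brun-Titchmarsh, `Pool.Agent.Helper27.LG.bg` with modulus `Q p₁` if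
`p₁ ≤ x^(1/4)`, and `z ≤ x^(1/4)`), and `p₁ > y ≥ log x`.
Sizes: `om y z` is between constants times `log y/log z`, so times `E log log x/log x`
(`Pool.Agent.Helper37.PP.mp`, `Pool.Agent.Helper88.CR.om_lower`; `log log x ≤ log y ≤ 2 log log x`,
`E log z ≤ log x ≤ 2 E log z`); `Q/φ(Q) = ∏_{p ∣ Q} (1 - 1/p)⁻¹` is `≥ (1/2) ∏_{p ≤ w} (1 - 1/p)⁻¹ ≥ c log w`
and `≤ C_q log w`, and `log w ≥ log log x/D`, `log w ≤ log log x`.  So `x om/(φ(Q) log x) ≥ c' XQ x Q om^2/E`,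
and (ii) is `≤ C'' (XQ x Q om^2/E)/log log x`. -/
def StmtLBB : Prop := ∀ D q : ℕ, 1 ≤ q → ∃ c : ℝ, 0 < c ∧ ∀ P₀ : ℕ, ∃ E0 : ℕ, ∀ E : ℕ, E0 ≤ E →
  ∃ x0 : ℕ, ∀ x : ℕ, x0 ≤ x → ∃ p₁ : ℕ, p₁.Prime ∧ P₀ ≤ p₁ ∧ ∀ z y w : ℕ, Su E z x y →
  (w : ℝ) ^ 10 ≤ Real.log x → Real.log x ≤ (w : ℝ) ^ D →
  ∀ b j : ℕ, b < Qm q p₁ w → 1 ≤ j → j + 2 ≤ y → Nat.Coprime (b + j) (Qm q p₁ w) →
  Nat.Coprime (b + j + 2) (Qm q p₁ w) →
  c * (XQ x (Qm q p₁ w) * (om y z ^ 2 / E)) ≤ ∑ n ∈ NQ x (Qm q p₁ w) b, pj x w z j n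

/-- PACKET SL (lower bound for `AT` under the weight; may assume LBB, LB2, BT2, EX2).
Proof.  Let `c` be from LBB, `C` from BT2; `P₀ ≥ 5, q + 1, 8 C/c`; `η = min (c/8) (1/4)`.  For `x ≥ x0(E)`:
`q ≤ w ≤ y` (so `Iq x w Q b`), `Q ≤ q 4^w`, `Q^40 ≤ x`, `y ≤ (log x)^2 ≤ w^(2D)`.  Let `Q = Qm q p₁ w`.
Pointwise, for `n ∈ NQ x Q b`: `pj x w z j n ≤ [AT E (n + j)] + [p₁ ≤ w, n + j prime, Rg y z (n + j + 2),
p₁ ∣ n + j + 2] + [R2 y z (n + j), ∃ p ∈ pr z (4z), p ∣ n + j + 2]`: if `pj ≠ 0`, `n + j` is a prime `> z`,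
`n + j + 2 ≡ b + j + 2` is prime to `Q` (so it has no prime factor `≤ w` except possibly `p₁`), and
has no prime factor in `(w, z]`; if it has also no prime factor in `(z, 4z]`, then `AT E (n + j)`
because `r^E ≤ n + j ≤ 33 x < 33 (z+1)^E` implies `r ≤ 4z` (`E ≥ 4`).  Multiply by `Wt2^2` and sum: LB2
and LBB give `≥ Dt2 X om^2/E ((1 - η) c - η)`; the second term is at most
`C (XQ x (Q p₁)) Dt2 om^2/E = (C/p₁) ..` (BT2, second part, modulus `Q p₁`; `p₁ ∤ Q`), the third at most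
`η ..` (EX2). -/
def StmtSL : Prop := ∀ D q : ℕ, 1 ≤ q → ∃ c : ℝ, 0 < c ∧ ∃ E0 : ℕ, ∀ E : ℕ, E0 ≤ E → ∃ x0 : ℕ,
  ∀ x : ℕ, x0 ≤ x → ∃ p₁ : ℕ, p₁.Prime ∧ 5 ≤ p₁ ∧ ¬ p₁ ∣ q ∧ ∀ z y w : ℕ, Su E z x y →
  (w : ℝ) ^ 10 ≤ Real.log x → Real.log x ≤ (w : ℝ) ^ D →
  ∀ b : ℕ, b < Qm q p₁ w → ∀ P : Finset ℕ, (P.card : ℝ) * om y z ^ 2 ≤ E * Real.log E →
  ∀ j : ℕ, j ∉ P → Sep y (insert j P) → Nat.Coprime (b + j) (Qm q p₁ w) →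
  Nat.Coprime (b + j + 2) (Qm q p₁ w) →
  c * (XQ x (Qm q p₁ w) * Dt2 E z y P * (om y z ^ 2 / E))
    ≤ ∑ n ∈ (NQ x (Qm q p₁ w) b).filter (fun n => AT E (n + j)), Wt2 E z y P n ^ 2

/-- PACKET PK (many windows; helper76; from SL, S2, KQ2, BT2, RC2, SU2, JP).
Proof.  `E = K`, `z`, `y = ⌊(log x)^2⌋`, `w = ⌊(log x)^(1/D₁)⌋`, `D₁ ≥ 10, D₀`, `D = 2 D₁`,
`Y = ⌊λ (log x)^2⌋`, `λ = κ/E`, `Y + 2 ≤ y`.  For a class `b` modulo `Q`: `G_b` the `h ≤ Y` with `b + h`,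
`b + h + 2` prime to `Q`, `J_b` those with `b + h ≡ a (q)`, `P_b` the others; `3 ∣ Q`, so all `h ∈ G_b` are
congruent modulo 3 and `Sep`.  With `o = om^2`: `R = #J_b o/E` is between two constants (JP, Mertens),
`c R ≥ 4 (m + 1)` if `κ` is large, and `#P_b o ≤ C κ E ≤ min(c, 1) E log E` for `E ≥ E0`.  Let
`N(n) = #{j ∈ J_b : AT K (n + j)}`; `A 1[N ≥ m+1] ≥ N - m - N (N-1)/A` for real `A ≥ 1`.  With weights
`Wt2^2`: `∑ N ≥ c R X Dt2` (SL), `∑ N (N-1) ≤ C R^2 X Dt2` (BT2, third part), `∑ 1 ≤ 2 X Dt2` (S2),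
`∑ #{h ∈ P_b : AT K (n + h)} ≤ η X Dt2` (KQ2; all primes `r ≤ z` satisfy `r^K ≤ z^E ≤ x < n + h`),
`∑ [#{h ∈ P_b : R2 y z (n + h)} > E^3] ≤ C (C κ E + E)/E^3 X Dt2` (RC2).  So the `n` with `N ≥ m + 1`, no
`AT` on `P_b`, and at most `E^3` rough points have weight `≥ X Dt2/(2A)`, and each weight is
`≤ exp(E^2/2)` (SU2).  For such `n`: if `h ≤ Y` and `AT K (n + h)`, then `h ∈ G_b` (`n + h > w` is prime, and
`n + h + 2` has no prime factor `≤ z`), so `h ∈ J_b`.  Sum over `b`. -/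
def StmtPK : Prop := ∀ m q a : ℕ, 1 ≤ q → Nat.Coprime (a * (a + 2)) q → ∃ K₀ : ℕ, ∀ K : ℕ,
  K₀ ≤ K → ∃ (c lam : ℝ) (x0 : ℕ), 0 < c ∧ 0 < lam ∧ ∀ x : ℕ, x0 ≤ x →
  c * x ≤ (((Ioc x (32 * x)).filter (fun n =>
    m + 1 ≤ ((Icc 1 ⌊lam * Real.log x ^ 2⌋₊).filter (fun h => AT K (n + h))).card ∧
    ∀ h ∈ Icc 1 ⌊lam * Real.log x ^ 2⌋₊, AT K (n + h) → n + h ≡ a [MOD q])).card : ℝ)

/-- PACKET FN: THE MAIN THEOREM (from PK, SB).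
Proof.  Let `s_i = nth (AT K) i`.  PK shows that `AT K` holds for infinitely many integers.  Let
`X` be large, `x = ⌊X/40⌋`, `Y = ⌊lam (log x)^2⌋`, `n` one of the integers in PK, `i` the number of the
`s ≤ n` with `AT K`: then `s_i, .., s_(i+m)` are in `(n, n + Y]`, so `≡ a`, and `s_i ≤ 33 x ≤ X`.  Every `i`
comes from at most `Y` of the `n` (`s_i - Y ≤ n < s_i`).  So there are at least
`c x/Y ≥ c' X/(log X)^2` such `i`, and `#{i : s_i ≤ X} ≤ C X/(log X)^2` by SB.  `K₀` is the maximum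
over the `a < q` (only `a mod q` matters). -/
def StmtFN : Prop := ∀ m q : ℕ, 1 ≤ q → ∃ K₀ : ℕ, ∀ K : ℕ, K₀ ≤ K → ∃ c : ℝ, 0 < c ∧
  ∃ x0 : ℕ, ∀ a : ℕ, Nat.Coprime (a * (a + 2)) q → ∀ x : ℕ, x0 ≤ x →
  c * ({n : ℕ | Nat.nth (AT K) n ≤ x}.ncard : ℝ)
    ≤ ({n : ℕ | Nat.nth (AT K) n ≤ x ∧ ∀ i ≤ m, Nat.nth (AT K) (n + i) ≡ a [MOD q]}.ncard : ℝ)

end Pool.Agent.Helper76.TW
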