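import Pool.Agent.Helper76.TW.PKb
import Pool.Agent.Helper88.TU.Size
import Pool.Agent.Helper37.PP.HM
import Pool.Agent.Helper88.CR.OM

/-! # T74: the parameters -/

set_option autoImplicit false

open Finset Filter Topology

open scoped Classical

namespace Pool.Agent.Helper76.TW

open Pool.Agent.Helper88.PP (pr Rg om)
open Pool.Agent.Helper88.TU (Su size)

/-- the density, up to constants -/
theorem om_size : ∃ c C : ℝ, 0 < c ∧ 0 < C ∧ ∃ E0 : ℕ, ∀ E z x y : ℕ, E0 ≤ E → Su E z x y →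
    c * (E * Real.log (Real.log x) / Real.log x) ≤ om y z ∧
    om y z ≤ C * (E * Real.log (Real.log x) / Real.log x) := by
  obtain ⟨C, hC, hmp⟩ := Pool.Agent.Helper37.PP.mp
  obtain ⟨c, hc, hom⟩ := Pool.Agent.Helper88.CR.om_lower
  obtain ⟨E1, hsz⟩ := size
  refine ⟨c, 4 * C, hc, by positivity, max E1 1, fun E z x y hE hSu => ?_⟩
  obtain ⟨a1, a2, a3, a4, a5, a6, a7, a8, a9, a10, a11, a12, a13, a14⟩ :=
    hsz E z x y ((le_max_left _ _).trans hE) hSu
  obtain ⟨b1, b2, b3, b4, b5⟩ := hSu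
  have hE1 : (1 : ℝ) ≤ E := by exact_mod_cast (le_max_right _ _).trans hE
  have hlz : 1 ≤ Real.log z := hE1.trans a1
  have hlz0 : 0 < Real.log z := by linarith
  have hlx : 1 ≤ Real.log x := by nlinarith
  have hlx0 : 0 < Real.log x := by linarith
  have hy0 : (0 : ℝ) < y := by linarith
  have hly1 : Real.log (Real.log x) ≤ Real.log y := Real.log_le_log hlx0 b4
  have hly2 : Real.log y ≤ 2 * Real.log (Real.log x) := by
    have := Real.log_le_log hy0 b5
    rw [Real.log_pow] at this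
    push_cast at this
    exact this
  have hll : 0 ≤ Real.log (Real.log x) := by linarith
  constructor
  · refine le_trans ?_ (hom y z a7 a9)
    refine mul_le_mul_of_nonneg_left ?_ hc.le
    rw [div_le_div_iff₀ hlx0 hlz0]
    calc (E : ℝ) * Real.log (Real.log x) * Real.log z
        = Real.log (Real.log x) * (E * Real.log z) := by ring
      _ ≤ Real.log y * Real.log x := mul_le_mul hly1 a2 (by positivity) (by linarith)
  · refine (hmp y z a7 a9).trans ?_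
    rw [mul_assoc, mul_comm (4 : ℝ)]
    have h1 : Real.log y / Real.log z ≤ 4 * (E * Real.log (Real.log x) / Real.log x) := by
      rw [mul_div_assoc', div_le_div_iff₀ hlz0 hlx0]
      calc Real.log y * Real.log x ≤ (2 * Real.log (Real.log x)) * (2 * (E * Real.log z)) :=
            mul_le_mul hly2 a3 hlx0.le (by positivity)
        _ = 4 * (E * Real.log (Real.log x)) * Real.log z := by ring
    calc C * (Real.log y / Real.log z) ≤ C * (4 * (E * Real.log (Real.log x) / Real.log x)) :=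
          mul_le_mul_of_nonneg_left h1 hC.le
      _ = _ := by ring

/-- the choice of the parameters -/
theorem params (E D₁ D₀ W q : ℕ) (lam : ℝ) (hE : 1 ≤ E) (hD : 10 ≤ D₁) (hD₀ : D₀ ≤ D₁)
    (hq : 1 ≤ q) (hlam : 0 < lam) (hlam1 : lam ≤ 1 / 2) : ∃ x0 : ℕ, ∀ x : ℕ, x0 ≤ x →
    ∃ z y w : ℕ, Su E z x y ∧ (w : ℝ) ^ 10 ≤ Real.log x ∧ Real.log x ≤ (w : ℝ) ^ (2 * D₁) ∧
      W ≤ w ∧ w ^ D₀ ≤ ⌊lam * Real.log x ^ 2⌋₊ ∧ ⌊lam * Real.log x ^ 2⌋₊ + 2 ≤ y ∧
      lam * Real.log x ^ 2 / 2 ≤ (⌊lam * Real.log x ^ 2⌋₊ : ℝ) ∧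
      Real.log w ≤ Real.log (Real.log x) / 10 ∧
      Real.log (Real.log x) ≤ 2 * D₁ * Real.log w ∧ 0 < Real.log w ∧ w ≤ z ∧ q ≤ z ∧ q ≤ w ∧
      (q * primorial w) ^ 40 ≤ x ∧ 1 ≤ Real.log (Real.log x) := by
  have t1 : Tendsto (fun x : ℕ => Real.log (x : ℝ)) atTop atTop :=
    Real.tendsto_log_atTop.comp tendsto_natCast_atTop_atTop
  have hD0 : (0 : ℝ) < D₁ := by exact_mod_cast (by omega : 0 < D₁)
  have t2 : Tendsto (fun x : ℕ => Real.log (x : ℝ) ^ (1 / (D₁ : ℝ))) atTop atTop :=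
    (tendsto_rpow_atTop (by positivity)).comp t1
  have hE0 : (0 : ℝ) < E := by exact_mod_cast hE
  have t3 : Tendsto (fun x : ℕ => (x : ℝ) ^ (1 / (E : ℝ))) atTop atTop :=
    (tendsto_rpow_atTop (by positivity)).comp tendsto_natCast_atTop_atTop
  -- `z ≥ w`, `z ≥ q`
  have t4 : ∀ᶠ x : ℕ in atTop, ‖Real.log (x : ℝ)‖ ≤ 1 * ‖(x : ℝ) ^ (1 / (2 * E : ℝ))‖ :=
    ((isLittleO_log_rpow_atTop (by positivity : (0 : ℝ) < 1 / (2 * E : ℝ))).comp_tendsto
      tendsto_natCast_atTop_atTop).bound (by norm_num)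
  have hev := ((t1.eventually_ge_atTop (2 / lam + 100 + 160 * Real.log q)).and
    (t2.eventually_ge_atTop ((W : ℝ) + 3 + q))).and
    ((t3.eventually_ge_atTop (Real.exp E + 1 + q)).and (t4.and (eventually_ge_atTop 3)))
  obtain ⟨x0, hx0⟩ := eventually_atTop.1 hev
  refine ⟨x0, fun x hx => ?_⟩
  obtain ⟨⟨h1, h2⟩, h3, h4, h5⟩ := hx0 x hx
  set L := Real.log (x : ℝ) with hL
  have hx3 : (3 : ℝ) ≤ x := by exact_mod_cast h5
  have hx0' : (0 : ℝ) < x := by linarith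
  have hlq : 0 ≤ Real.log (q : ℝ) := Real.log_natCast_nonneg q
  have h2l : 0 < 2 / lam := by positivity
  have hL100 : 100 ≤ L := by linarith
  have hL0 : 0 < L := by linarith
  have hlL : 2 ≤ lam * L := by
    have : 2 / lam ≤ L := by linarith
    rw [div_le_iff₀ hlam] at this
    linarith
  -- z
  obtain ⟨z, hz⟩ : ∃ z : ℕ, z = ⌊(x : ℝ) ^ (1 / (E : ℝ))⌋₊ := ⟨_, rfl⟩
  have z1 : (z : ℝ) ≤ (x : ℝ) ^ (1 / (E : ℝ)) := by rw [hz]; exact Nat.floor_le (by positivity)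
  have z2 : (x : ℝ) ^ (1 / (E : ℝ)) < z + 1 := by rw [hz]; exact Nat.lt_floor_add_one _
  have zE : ((x : ℝ) ^ (1 / (E : ℝ))) ^ E = x := by
    rw [← Real.rpow_natCast, ← Real.rpow_mul hx0'.le, one_div, inv_mul_cancel₀ hE0.ne',
      Real.rpow_one]
  have z3 : z ^ E ≤ x := by
    have : ((z ^ E : ℕ) : ℝ) ≤ x := by
      push_cast
      calc (z : ℝ) ^ E ≤ ((x : ℝ) ^ (1 / (E : ℝ))) ^ E :=
            pow_le_pow_left₀ (Nat.cast_nonneg _) z1 E
        _ = x := zE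
    exact_mod_cast this
  have z4 : x < (z + 1) ^ E := by
    have : (x : ℝ) < (((z + 1) ^ E : ℕ) : ℝ) := by
      push_cast
      calc (x : ℝ) = ((x : ℝ) ^ (1 / (E : ℝ))) ^ E := zE.symm
        _ < ((z : ℝ) + 1) ^ E := pow_lt_pow_left₀ z2 (by positivity) (by omega)
    exact_mod_cast this
  have hq0 : (0 : ℝ) ≤ q := Nat.cast_nonneg q
  have z5 : Real.exp E ≤ z := by linarith
  have z6 : q ≤ z := by
    have : (q : ℝ) ≤ z := by
      have := Real.exp_pos (E : ℝ)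
      linarith
    exact_mod_cast this
  -- y
  obtain ⟨y, hy⟩ : ∃ y : ℕ, y = ⌊L ^ 2⌋₊ := ⟨_, rfl⟩
  have y1 : (y : ℝ) ≤ L ^ 2 := by rw [hy]; exact Nat.floor_le (by positivity)
  have y2 : L ^ 2 < y + 1 := by rw [hy]; exact Nat.lt_floor_add_one _
  have y3 : L ≤ y := by nlinarith
  -- w
  obtain ⟨w, hw⟩ : ∃ w : ℕ, w = ⌊L ^ (1 / (D₁ : ℝ))⌋₊ := ⟨_, rfl⟩
  have w1 : (w : ℝ) ≤ L ^ (1 / (D₁ : ℝ)) := by rw [hw]; exact Nat.floor_le (by positivity)
  have w2 : L ^ (1 / (D₁ : ℝ)) < w + 1 := by rw [hw]; exact Nat.lt_floor_add_one _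
  have wD : (L ^ (1 / (D₁ : ℝ))) ^ D₁ = L := by
    rw [← Real.rpow_natCast, ← Real.rpow_mul hL0.le, one_div, inv_mul_cancel₀ hD0.ne',
      Real.rpow_one]
  have hW0 : (0 : ℝ) ≤ W := Nat.cast_nonneg W
  have w3 : (2 : ℝ) ≤ w := by linarith
  have w3' : W ≤ w := by
    have : (W : ℝ) ≤ w := by linarith
    exact_mod_cast this
  have w3q : q ≤ w := by
    have : (q : ℝ) ≤ w := by linarith
    exact_mod_cast this
  have w4 : (w : ℝ) ^ D₁ ≤ L := by
    calc (w : ℝ) ^ D₁ ≤ (L ^ (1 / (D₁ : ℝ))) ^ D₁ := pow_le_pow_left₀ (by positivity) w1 D₁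
      _ = L := wD
  have w5 : ∀ k : ℕ, k ≤ D₁ → (w : ℝ) ^ k ≤ L := fun k hk =>
    (pow_le_pow_right₀ (by linarith) hk).trans w4
  have w6 : L ≤ (w : ℝ) ^ (2 * D₁) := by
    calc L = (L ^ (1 / (D₁ : ℝ))) ^ D₁ := wD.symm
      _ ≤ ((w : ℝ) ^ 2) ^ D₁ := pow_le_pow_left₀ (by positivity) (by nlinarith) D₁
      _ = (w : ℝ) ^ (2 * D₁) := by rw [← pow_mul]
  have lw0 : 0 < Real.log w := Real.log_pos (by linarith)
  have w7 : Real.log w ≤ Real.log L / 10 := by
    have := Real.log_le_log (by positivity) (w5 10 hD)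
    rw [Real.log_pow] at this
    push_cast at this
    linarith
  have w8 : Real.log L ≤ 2 * D₁ * Real.log w := by
    have := Real.log_le_log hL0 w6
    rw [Real.log_pow] at this
    push_cast at this
    exact this
  -- Y
  have Y1 : (⌊lam * L ^ 2⌋₊ : ℝ) ≤ lam * L ^ 2 := Nat.floor_le (by positivity)
  have Y2 : lam * L ^ 2 < (⌊lam * L ^ 2⌋₊ : ℝ) + 1 := Nat.lt_floor_add_one _
  have Y3 : L ≤ lam * L ^ 2 / 2 := by nlinarith
  refine ⟨z, y, w, ⟨z5, z3, z4, y3, y1⟩, w5 10 hD, w6, w3', ?_, ?_, ?_, w7, w8, lw0, ?_, z6, w3q,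
    ?_, ?_⟩
  · have : ((w ^ D₀ : ℕ) : ℝ) ≤ (⌊lam * L ^ 2⌋₊ : ℝ) := by
      push_cast
      have := w5 D₀ hD₀
      linarith
    exact_mod_cast this
  · have : ((⌊lam * L ^ 2⌋₊ + 2 : ℕ) : ℝ) ≤ y := by
      push_cast
      nlinarith
    exact_mod_cast this
  · linarith
  · -- `w ≤ z`
    have e1 : L ≤ (x : ℝ) ^ (1 / (2 * E : ℝ)) := by
      have h4' : ‖L‖ ≤ 1 * ‖(x : ℝ) ^ (1 / (2 * E : ℝ))‖ := h4
      rw [Real.norm_of_nonneg hL0.le, Real.norm_of_nonneg
        (by positivity : (0 : ℝ) ≤ (x : ℝ) ^ (1 / (2 * E : ℝ))), one_mul] at h4'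
      exact h4'
    have e2 : (x : ℝ) ^ (1 / (E : ℝ)) = ((x : ℝ) ^ (1 / (2 * E : ℝ))) ^ 2 := by
      rw [← Real.rpow_natCast, ← Real.rpow_mul hx0'.le]
      congr 1
      push_cast
      field_simp
    have e3 : L ^ 2 ≤ (x : ℝ) ^ (1 / (E : ℝ)) := by
      rw [e2]
      exact pow_le_pow_left₀ hL0.le e1 2
    have e4 : (w : ℝ) ≤ L := by
      have := w5 1 (by omega)
      rwa [pow_one] at this
    have e5 : (w : ℝ) ≤ z := by nlinarith
    exact_mod_cast e5
  · -- the modulus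
    have e1 : (w : ℝ) ≤ L / 512 := by
      have e2 := w5 10 hD
      have e3 : (512 : ℝ) ≤ (w : ℝ) ^ 9 := by
        calc (512 : ℝ) = 2 ^ 9 := by norm_num
          _ ≤ (w : ℝ) ^ 9 := pow_le_pow_left₀ (by norm_num) w3 9
      have e4 : (w : ℝ) ^ 10 = (w : ℝ) ^ 9 * w := by ring
      rw [e4] at e2
      have e5 : 512 * (w : ℝ) ≤ (w : ℝ) ^ 9 * w := by nlinarith
      linarith
    have e6 : (0 : ℝ) < (q * primorial w : ℕ) := by
      exact_mod_cast Nat.mul_pos hq (primorial_pos w)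
    have e7 : Real.log (q * primorial w : ℕ) ≤ Real.log q + 7 / 5 * w := by
      push_cast
      rw [Real.log_mul (by exact_mod_cast (by omega : q ≠ 0))
        (by exact_mod_cast (primorial_pos w).ne')]
      have e8 : (primorial w : ℝ) ≤ (4 : ℝ) ^ w := by exact_mod_cast primorial_le_four_pow w
      have e9 : Real.log (primorial w) ≤ w * Real.log 4 := by
        rw [← Real.log_pow]
        exact Real.log_le_log (by exact_mod_cast primorial_pos w) e8
      have e10 : Real.log 4 ≤ 7 / 5 := by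
        have h7 : Real.log 4 = 2 * Real.log 2 := by
          rw [show (4 : ℝ) = 2 ^ 2 by norm_num, Real.log_pow]
          norm_num
        have := Real.log_two_lt_d9
        rw [h7]
        linarith
      have e11 : (w : ℝ) * Real.log 4 ≤ w * (7 / 5) :=
        mul_le_mul_of_nonneg_left e10 (by linarith)
      linarith
    have e12 : (((q * primorial w) ^ 40 : ℕ) : ℝ) ≤ x := by
      rw [← Real.log_le_log_iff (by push_cast; push_cast at e6; positivity) hx0']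
      push_cast
      push_cast at e7
      rw [Real.log_pow]
      push_cast
      have : 160 * Real.log q ≤ L := by linarith
      linarith
    exact_mod_cast e12
  · rw [Real.le_log_iff_exp_le hL0]
    have := Real.exp_one_lt_d9
    linarith

end Pool.Agent.Helper76.TW
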