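import Pool.Agent.Helper88.TU.Goals

/-!
# Strings of consecutive primes `p` such that `p + 2` is almost prime: definitions

`AT K p`: `p` is a prime and `p + 2` has no prime factor `r` with `r ^ K ≤ p`.  All primes of a
window `(n, n + Y]`, `Y` about `(log x)^2`, which have the property `AT K` are in the class `a`
modulo `q`, and there are at least `m + 1` of them, for a positive proportion of the `n`.
-/

set_option autoImplicit false

open Finset Filter Topology

open scoped Classical

namespace Pool.Agent.Helper76.TW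

open Pool.Agent.Helper88.PP (pr Rg om Sf SS uu vv ee LA VV QQ cost nc dd)
open Pool.Agent.Helper88.RR (gg ab TB nz Db VM)
open Pool.Agent.Helper88.GM (NI XI)
open Pool.Agent.Helper88.CG (tw pw th sg qE mE DS)

/-- `n` is a prime and no prime `r` with `r ^ K ≤ n` divides `n + 2` -/
def AT (K n : ℕ) : Prop := n.Prime ∧ ∀ r : ℕ, r.Prime → r ^ K ≤ n → ¬ r ∣ n + 2

/-- the modulus: `q` times the primes up to `w` which do not divide `q`, without `p₁` -/
noncomputable def Qm (q p₁ w : ℕ) : ℕ :=
  q * ∏ p ∈ (Icc 1 w).filter (fun p => p.Prime ∧ p ≠ p₁ ∧ ¬ p ∣ q), p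

/-- the conditions for a class `b` modulo `Q`: all prime factors of `Q` are `≤ w`, and `Q` is
small -/
def Iq (x w Q b : ℕ) : Prop := b < Q ∧ (∀ p : ℕ, p.Prime → p ∣ Q → p ≤ w) ∧ Q ^ 20 ≤ x

/-- the integers of `(x, 32 x]` in the class `b` modulo `Q` -/
noncomputable def NQ (x Q b : ℕ) : Finset ℕ := NI x (32 * x) Q b

/-- about the number of elements of `NQ x Q b`, `31 x / Q` -/
noncomputable def XQ (x Q : ℕ) : ℝ := XI x (32 * x) Q

/-- `m` and `m + 2` have no prime factor in `(y, z]` -/
def R2 (y z m : ℕ) : Prop := Rg y z m ∧ Rg y z (m + 2)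

/-- the function with label `r` at the integer `m`; the label `0` means: no condition -/
noncomputable def vR (R : ℕ → Prop) (r m : ℕ) : ℝ := if r = 0 then 1 else if R m then uu r m else 0

/-- `1` if `d = 0`, otherwise the indicator of `d ∣ m` and `R m` -/
noncomputable def icR (R : ℕ → Prop) (d m : ℕ) : ℝ :=
  if d = 0 then 1 else if d ∣ m ∧ R m then 1 else 0

/-- the points of `B` and `B + 2` are `2 #B` different points of `[1, y]` -/
def Sep (y : ℕ) (B : Finset ℕ) : Prop :=
  (∀ i ∈ B, 1 ≤ i ∧ i + 2 ≤ y) ∧ ∀ i ∈ B, ∀ j ∈ B, j ≠ i + 2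

/-- the weight: the part of small cost of `∏_{i ∈ P} (1 - S(n + i))` -/
noncomputable def W2 (m q M z y : ℕ) (P : Finset ℕ) (n : ℕ) : ℝ :=
  ∑ r ∈ TB m q M z P, ∏ i : P,
    ((if r i = 0 then 1 else - ab m q z (r i)) * vR (R2 y z) (r i) (n + (i : ℕ)))

/-- the contribution of the label function `r` to the mean square of the weight -/
noncomputable def wb2 (m q y z : ℕ) {P : Finset ℕ} (r : P → ℕ) : ℝ :=
  gg y z (2 * nz r) *
    ∏ i : P, (if r i = 0 then 1 else ab m q z (r i) ^ 2 * (Nat.totient (r i) : ℝ))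

/-- the mean square of the weight -/
noncomputable def D2 (m q M z y : ℕ) (P : Finset ℕ) : ℝ := ∑ r ∈ TB m q M z P, wb2 m q y z r

/-- the weight at a prime `n + h` with `n + h + 2` rough, times the majorant of the primes -/
noncomputable def G2 (m q M z y : ℕ) (P : Finset ℕ) (h : P) (n : ℕ) : ℝ :=
  ∑ r ∈ (TB m q M z P).filter (fun r => r h = 0), ∑ s ∈ SS z (z ^ M),
    Db m q M z (cost z r) * (1 / (VM M z * (Nat.totient s : ℝ))) *
      vR (R2 y z) s (n + (h : ℕ)) *
      ∏ i : P, ((if r i = 0 then 1 else - ab m q z (r i)) * vR (R2 y z) (r i) (n + (i : ℕ)))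

/-- the weight with our parameters (`qE`, `mE` of project CG) -/
noncomputable def Wt2 (E z y : ℕ) (P : Finset ℕ) (n : ℕ) : ℝ :=
  W2 (mE E) (qE E) (E / 16) z y P n

/-- its mean square -/
noncomputable def Dt2 (E z y : ℕ) (P : Finset ℕ) : ℝ := D2 (mE E) (qE E) (E / 16) z y P

/-- weight of the prime `n + j` if `n + j + 2` has no prime factor in `(w, z]` -/
noncomputable def pj (x w z j n : ℕ) : ℝ :=
  pw (32 * x) (n + j) * (if Rg w z (n + j + 2) then 1 else 0)

/-- the weighted number of the `n ∈ N` with the conditions given by `d` -/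
noncomputable def CJ (x w y z j : ℕ) (N : Finset ℕ) {P : Finset ℕ} (d : P → ℕ) : ℝ :=
  ∑ n ∈ N, pj x w z j n * ∏ i : P, icR (R2 y z) (d i) (n + (i : ℕ))

end Pool.Agent.Helper76.TW
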