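import Mathlib

/-! # T74: packet PK, numbers -/

set_option autoImplicit false

namespace Pool.Agent.Helper76.TW

/-- numbers: the density of the points -/
theorem numR {Y lw l L lam κ E D1 c1 c2 co Co om cJ cG : ℝ} (hL : 0 < L) (hl : 1 ≤ l)
    (hlw : 0 < lw) (hlw1 : lw ≤ l / 10) (hlw2 : l ≤ 2 * D1 * lw) (hE : 0 < E) (hκ : 0 < κ)
    (hD1 : 0 < D1)
    (hlam : lam = κ / E) (hY1 : lam * L ^ 2 / 2 ≤ Y) (hY2 : Y ≤ lam * L ^ 2)
    (hc1 : 0 < c1) (hc2 : 0 ≤ c2) (hco : 0 < co) (hCo : 0 < Co)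
    (h1 : co * (E * l / L) ≤ om) (h2 : om ≤ Co * (E * l / L))
    (hJ : c1 * (Y / lw ^ 2) ≤ cJ) (hG : cG ≤ c2 * (Y / lw ^ 2)) :
    50 * c1 * co ^ 2 * κ ≤ cJ * (om ^ 2 / E) ∧ cG * om ^ 2 ≤ 4 * c2 * D1 ^ 2 * Co ^ 2 * κ * E := by
  have hl0 : 0 < l := by linarith
  have hlam0 : 0 < lam := by rw [hlam]; positivity
  have hY0 : 0 < Y := lt_of_lt_of_le (by positivity) hY1
  have hom0 : 0 < om := lt_of_lt_of_le (by positivity) h1
  constructor
  · have e1 : c1 * ((lam * L ^ 2 / 2) * (100 / l ^ 2)) ≤ cJ := by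
      refine le_trans ?_ hJ
      apply mul_le_mul_of_nonneg_left _ hc1.le
      rw [div_eq_mul_one_div Y]
      have e2 : 100 / l ^ 2 ≤ 1 / lw ^ 2 := by
        rw [div_le_div_iff₀ (by positivity) (by positivity)]
        nlinarith
      exact mul_le_mul hY1 e2 (by positivity) hY0.le
    have e3 : (co * (E * l / L)) ^ 2 ≤ om ^ 2 := pow_le_pow_left₀ (by positivity) h1 2
    calc 50 * c1 * co ^ 2 * κ
        = (c1 * ((lam * L ^ 2 / 2) * (100 / l ^ 2))) * ((co * (E * l / L)) ^ 2 / E) := by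
          rw [hlam]; field_simp; ring
      _ ≤ cJ * (om ^ 2 / E) := by
          apply mul_le_mul e1 _ (by positivity) (le_trans (by positivity) e1)
          exact div_le_div_of_nonneg_right e3 hE.le
  · have e1 : cG ≤ c2 * ((lam * L ^ 2) * (4 * D1 ^ 2 / l ^ 2)) := by
      refine hG.trans ?_
      apply mul_le_mul_of_nonneg_left _ hc2
      rw [div_eq_mul_one_div Y]
      have e2 : 1 / lw ^ 2 ≤ 4 * D1 ^ 2 / l ^ 2 := by
        rw [div_le_div_iff₀ (by positivity) (by positivity)]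
        have : l ^ 2 ≤ (2 * D1 * lw) ^ 2 := pow_le_pow_left₀ hl0.le hlw2 2
        nlinarith
      exact mul_le_mul hY2 e2 (by positivity) (by positivity)
    have e3 : om ^ 2 ≤ (Co * (E * l / L)) ^ 2 := pow_le_pow_left₀ hom0.le h2 2
    calc cG * om ^ 2 ≤ (c2 * ((lam * L ^ 2) * (4 * D1 ^ 2 / l ^ 2))) * om ^ 2 :=
          mul_le_mul_of_nonneg_right e1 (sq_nonneg _)
      _ ≤ (c2 * ((lam * L ^ 2) * (4 * D1 ^ 2 / l ^ 2))) * (Co * (E * l / L)) ^ 2 :=
          mul_le_mul_of_nonneg_left e3 (by positivity)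
      _ = 4 * c2 * D1 ^ 2 * Co ^ 2 * κ * E := by
          rw [hlam]; field_simp

end Pool.Agent.Helper76.TW
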