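import Pool.Agent.Helper76.TW.PKe
import Pool.Agent.Helper76.TW.PKf
import Pool.Agent.Helper88.CG.VP

/-! # T74: packet PK, many windows -/

set_option autoImplicit false

open Finset Filter Topology

open scoped Classical

namespace Pool.Agent.Helper76.TW

open Pool.Agent.Helper88.PP (pr Rg om)
open Pool.Agent.Helper88.TU (Su size)
open Pool.Agent.Helper88.CG (qE mE)

theorem pk (hSL : StmtSL) (hS2 : StmtS2) (hKQ : StmtKQ2) (hBT : StmtBT2) (hRC : StmtRC2)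
    (hSU : StmtSU2) (hJP : StmtJP) : StmtPK := by
  intro m q a hq ha
  obtain ⟨D₀, W, cj, Cj', hcj, hJ⟩ := hJP q a hq ha
  obtain ⟨Cj, hCj⟩ : ∃ Cj : ℝ, Cj = max Cj' 1 := ⟨_, rfl⟩
  have hCj1 : 1 ≤ Cj := hCj ▸ le_max_right _ _
  have hCj2 : Cj' ≤ Cj := hCj ▸ le_max_left _ _
  obtain ⟨D₁, hD₁⟩ : ∃ D₁ : ℕ, D₁ = max 10 D₀ := ⟨_, rfl⟩
  have hD10 : 10 ≤ D₁ := hD₁ ▸ le_max_left _ _
  have hDD : D₀ ≤ D₁ := hD₁ ▸ le_max_right _ _
  have hD1r : (0 : ℝ) < D₁ := by exact_mod_cast (by omega : 0 < D₁)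
  obtain ⟨cs, hcs, E1, hSL⟩ := hSL (2 * D₁) q hq
  obtain ⟨cK, hcK, hKQ⟩ := hKQ
  obtain ⟨CP, hCP, E2, hBT⟩ := hBT
  obtain ⟨CR, hCR, E3, hRC⟩ := hRC
  obtain ⟨E4, hSU⟩ := hSU
  obtain ⟨c2, hc2, E5, hS2⟩ := hS2
  obtain ⟨co, Co, hco, hCo, E6, hom⟩ := om_size
  obtain ⟨_, _, E7, hVP⟩ := Pool.Agent.Helper88.CG.vp
  obtain ⟨E8, hSize⟩ := size
  have hCP0 : 0 < CP := by linarith
  have hm0 : (0 : ℝ) ≤ m := Nat.cast_nonneg m
  -- the constants
  obtain ⟨κ, hκ⟩ : ∃ κ : ℝ, κ = 4 * ((m : ℝ) + 1) / (cs * (50 * cj * co ^ 2)) := ⟨_, rfl⟩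
  have hκ0 : 0 < κ := by rw [hκ]; positivity
  have hκ1 : 4 * ((m : ℝ) + 1) ≤ cs * (50 * cj * co ^ 2 * κ) := by
    rw [hκ]
    apply le_of_eq
    field_simp
  obtain ⟨Cg, hCg⟩ : ∃ Cg : ℝ, Cg = 4 * Cj * D₁ ^ 2 * Co ^ 2 * κ := ⟨_, rfl⟩
  have hCg0 : 0 < Cg := by rw [hCg]; positivity
  obtain ⟨A, hAdef⟩ : ∃ A : ℝ, A = max 1 (4 * CP * Cg / cs) := ⟨_, rfl⟩
  have hA1 : 1 ≤ A := hAdef ▸ le_max_left _ _
  have hA2 : 4 * CP * Cg ≤ cs * A := by
    have : 4 * CP * Cg / cs ≤ A := hAdef ▸ le_max_right _ _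
    rw [div_le_iff₀ hcs] at this
    linarith
  have hA0 : 0 < A := by linarith
  obtain ⟨E9, hKQ⟩ := hKQ (1 / (4 * A)) (by positivity)
  -- the size of `E`
  obtain ⟨cm, hcm⟩ : ∃ cm : ℝ, cm = min cK 1 := ⟨_, rfl⟩
  have hcm0 : 0 < cm := by rw [hcm]; exact lt_min hcK one_pos
  have tE : Tendsto (fun E : ℕ => (E : ℝ)) atTop atTop := tendsto_natCast_atTop_atTop
  have tL : Tendsto (fun E : ℕ => Real.log (E : ℝ)) atTop atTop :=
    Real.tendsto_log_atTop.comp tE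
  have hev := ((tE.eventually_ge_atTop (2 * κ + 2 * Cg + 4 * A * (CR * (Cg + 1)) + 1)).and
    (tL.eventually_ge_atTop (Cg / cm))).and (eventually_ge_atTop
      (E1 + E2 + E3 + E4 + E5 + E6 + E7 + E8 + E9 + 1))
  obtain ⟨K₀, hK₀⟩ := eventually_atTop.1 hev
  refine ⟨K₀, fun E hE => ?_⟩
  obtain ⟨⟨g1, g2⟩, g3⟩ := hK₀ E hE
  have hE1 : 1 ≤ E := by omega
  have hE1r : (1 : ℝ) ≤ E := by exact_mod_cast hE1
  have hE0 : (0 : ℝ) < E := by linarith
  have hCRg : 0 < 4 * A * (CR * (Cg + 1)) := by positivity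
  have gE1 : 2 * κ ≤ E := by linarith
  have gE2 : 2 * Cg ≤ E := by linarith
  have gE3 : 4 * A * (CR * (Cg + 1)) ≤ (E : ℝ) ^ 2 := by nlinarith
  have gL : Cg ≤ cm * Real.log E := by
    rw [div_le_iff₀ hcm0] at g2
    linarith
  have gLK : Cg * E ≤ cK * (E * Real.log E) := by
    have h0 : 0 ≤ Real.log (E : ℝ) := Real.log_natCast_nonneg E
    have h1 : cm * Real.log E ≤ cK * Real.log E :=
      mul_le_mul_of_nonneg_right (hcm ▸ min_le_left _ _) h0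
    calc Cg * E ≤ (cK * Real.log E) * E := mul_le_mul_of_nonneg_right (gL.trans h1) hE0.le
      _ = _ := by ring
  have gL1 : Cg * E ≤ E * Real.log E := by
    have h0 : 0 ≤ Real.log (E : ℝ) := Real.log_natCast_nonneg E
    have h1 : cm * Real.log E ≤ 1 * Real.log E :=
      mul_le_mul_of_nonneg_right (hcm ▸ min_le_right _ _) h0
    calc Cg * E ≤ (1 * Real.log E) * E := mul_le_mul_of_nonneg_right (gL.trans h1) hE0.le
      _ = _ := by ring
  have gE4 : Cg * E ≤ (E : ℝ) ^ 2 / 2 := by nlinarith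
  obtain ⟨lam, hlam⟩ : ∃ lam : ℝ, lam = κ / E := ⟨_, rfl⟩
  have hlam0 : 0 < lam := by rw [hlam]; positivity
  have hlam1 : lam ≤ 1 / 2 := by
    rw [hlam, div_le_iff₀ hE0]
    linarith
  obtain ⟨x1, hSLx⟩ := hSL E (by omega)
  obtain ⟨x2, hpar⟩ := params E D₁ D₀ (W + 3) q lam hE1 hD10 hDD hq hlam0 hlam1
  refine ⟨31 / (2 * A) / Real.exp ((E : ℝ) ^ 2 / 2), lam, max x1 x2, by positivity, hlam0,
    fun x hx => ?_⟩
  obtain ⟨z, y, w, u1, u2, u3, u4, u5, u6, u7, u8, u9, u10, u11, u12, u13, u14, u15⟩ :=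
    hpar x ((le_max_right _ _).trans hx)
  obtain ⟨p₁, p1, p2, p3, hSLp⟩ := hSLx x ((le_max_left _ _).trans hx)
  obtain ⟨Y, hY⟩ : ∃ Y : ℕ, Y = ⌊lam * Real.log x ^ 2⌋₊ := ⟨_, rfl⟩
  rw [← hY] at u5 u6 u7 ⊢
  obtain ⟨Q, hQ⟩ : ∃ Q : ℕ, Q = Qm q p₁ w := ⟨_, rfl⟩
  have hQ0 : 0 < Q := by rw [hQ]; exact Qm_pos hq p₁ w
  have hQz : ∀ p : ℕ, p.Prime → p ∣ Q → p ≤ z := by
    intro p hp hd
    rw [hQ] at hd
    rcases le_of_dvd_Qm hq hp hd with h | h
    · exact h.trans u12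
    · exact h.trans u11
  have hQw : ∀ p : ℕ, p.Prime → p ∣ Q → p ≤ w := by
    intro p hp hd
    rw [hQ] at hd
    rcases le_of_dvd_Qm hq hp hd with h | h
    · exact h.trans u13
    · exact h
  have h3Q : 3 ∣ Q := by
    rw [hQ]
    exact dvd_Qm Nat.prime_three (by omega) (by omega)
  have hqQ : q ∣ Q := by rw [hQ]; exact Qm_dvd_left q p₁ w
  obtain ⟨s1, s2, s3, s4, s5, s6, s7, s8, s9, s10, s11, s12, s13, s14⟩ :=
    hSize E z x y (by omega) u1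
  have hL0 : 0 < Real.log (x : ℝ) := by nlinarith
  have hL1 : 1 ≤ Real.log (x : ℝ) := by nlinarith
  have hwy : w ≤ y := by
    have h1 : (w : ℝ) ≤ y := by
      have h2 : (w : ℝ) ≤ (w : ℝ) ^ 10 := by
        have : (1 : ℝ) ≤ w := by exact_mod_cast (by omega : 1 ≤ w)
        exact le_self_pow₀ this (by norm_num)
      exact h2.trans (u2.trans u1.2.2.2.1)
    exact_mod_cast h1
  have hQ40 : Q ^ 40 ≤ x := by
    rw [hQ]
    exact (Nat.pow_le_pow_left (Qm_le q p₁ w) 40).trans u14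
  have hQ20 : Q ^ 20 ≤ x := (Nat.pow_le_pow_right hQ0 (by norm_num)).trans hQ40
  have hIq : ∀ b : ℕ, b < Q → Iq x y Q b := fun b hb =>
    ⟨hb, fun p hp hd => (hQw p hp hd).trans hwy, hQ20⟩
  obtain ⟨om1, om2⟩ := hom E z x y (by omega) u1
  have hY2 : (Y : ℝ) ≤ lam * Real.log x ^ 2 := by rw [hY]; exact Nat.floor_le (by positivity)
  obtain ⟨v1, v2, v3, v4, v5, v6⟩ := hVP E (by omega)
  obtain ⟨v7, v8⟩ := v6 z (by omega)
  have v9 : qE E * mE E ≤ E / 16 := by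
    refine le_trans ?_ v2
    rw [sq, mul_assoc]
    refine Nat.le_mul_of_pos_left _ ?_
    unfold qE
    positivity
  have v10 : (E / 16 / mE E + 1) ^ 3 ≤ E := by
    refine le_trans ?_ v4
    generalize E / 16 / mE E = t
    calc (t + 1) ^ 3 ≤ (2 * (t + 2)) ^ 3 := Nat.pow_le_pow_left (by omega) 3
      _ ≤ (2 * (t + 2)) ^ 6 := Nat.pow_le_pow_right (by omega) (by norm_num)
  -- one class
  have key : ∀ b ∈ range Q, XQ x Q / (2 * A) / Real.exp ((E : ℝ) ^ 2 / 2) ≤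
      (((NQ x Q b).filter (fun n => m + 1 ≤ ((Icc 1 Y).filter (fun h => AT E (n + h))).card ∧
        ∀ h ∈ Icc 1 Y, AT E (n + h) → n + h ≡ a [MOD q])).card : ℝ) := by
    intro b hb
    rw [Finset.mem_range] at hb
    obtain ⟨j1, j2⟩ := hJ w p₁ b Y (by omega) p1 p2 p3 u5
    rw [← hQ] at j1 j2
    rw [← card_Jb q a Q b Y] at j1
    obtain ⟨J, hJdef⟩ : ∃ J : Finset ℕ, J = Jb q a Q b Y := ⟨_, rfl⟩
    obtain ⟨P, hPdef⟩ : ∃ P : Finset ℕ, P = Pb q a Q b Y := ⟨_, rfl⟩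
    obtain ⟨o, ho⟩ : ∃ o : ℝ, o = om y z ^ 2 := ⟨_, rfl⟩
    have ho0 : 0 ≤ o := by rw [ho]; positivity
    have hGdef : (Icc 1 Y).filter (fun h => Nat.Coprime (b + h) Q ∧ Nat.Coprime (b + h + 2) Q) =
      Gb Q b Y := rfl
    rw [hGdef] at j2
    have hJG : J ⊆ Gb Q b Y := by rw [hJdef]; exact Finset.filter_subset _ _
    have hPG : P ⊆ Gb Q b Y := by rw [hPdef]; exact Finset.filter_subset _ _
    have hlog0 : 0 ≤ (Y : ℝ) / Real.log w ^ 2 := by positivity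
    obtain ⟨n1, n2⟩ := numR (om := om y z) (cJ := ((Jb q a Q b Y).card : ℝ))
      (cG := ((Gb Q b Y).card : ℝ)) hL0 u15 u10 u8 u9 hE0 hκ0 hD1r hlam u7 hY2 hcj
      (by linarith : 0 ≤ Cj) hco hCo om1 om2 j1
      (j2.trans (mul_le_mul_of_nonneg_right hCj2 hlog0))
    rw [← hCg, ← ho] at n2
    rw [← hJdef, ← ho] at n1
    have cJ : (J.card : ℝ) ≤ (Gb Q b Y).card := by exact_mod_cast Finset.card_le_card hJG
    have cP : (P.card : ℝ) ≤ (Gb Q b Y).card := by exact_mod_cast Finset.card_le_card hPG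
    have hPo : (P.card : ℝ) * o ≤ Cg * E := (mul_le_mul_of_nonneg_right cP ho0).trans n2
    have hJo : (J.card : ℝ) * (o / E) ≤ Cg := by
      have : (J.card : ℝ) * o ≤ Cg * E := (mul_le_mul_of_nonneg_right cJ ho0).trans n2
      rw [← mul_div_assoc, div_le_iff₀ hE0]
      exact this
    have hjP : ∀ j ∈ J, j ∉ P := by
      intro j hj hj'
      rw [hJdef] at hj
      rw [hPdef] at hj'
      exact (Finset.mem_filter.1 hj').2 (Finset.mem_filter.1 hj).2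
    have hsP : Sep y P := sep_Gb h3Q u6 hPG
    have hsJ : ∀ j ∈ J, Sep y (insert j P) := fun j hj =>
      sep_Gb h3Q u6 (Finset.insert_subset (hJG hj) hPG)
    have hsJJ : ∀ j ∈ J, ∀ j' ∈ J, Sep y (insert j (insert j' P)) := fun j hj j' hj' =>
      sep_Gb h3Q u6 (Finset.insert_subset (hJG hj) (Finset.insert_subset (hJG hj') hPG))
    have hPy : P ⊆ Icc 1 y := by
      intro i hi
      have := hsP.1 i hi
      exact Finset.mem_Icc.2 ⟨this.1, by omega⟩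
    obtain ⟨i1, i2⟩ := hS2 E z x y (by omega) u1 Q b (hIq b hb) (mE E) (qE E) v1 v9 v7 v10 P hsP
      (by rw [← ho]; linarith [sq_nonneg (E : ℝ)])
    have hDt : 1 ≤ Dt2 E z y P := i1
    have hX0 := XQ_nonneg x Q
    obtain ⟨b1, b2, b3⟩ := hBT E z x y (by omega) u1 Q b (hIq b hb)
    have hcl := oneclass (E := E) (x := x) (z := z) (y := y) (Q := Q) (b := b) (m := m)
      (cs := cs) (CP := CP) (CR := CR) (A := A) (r1 := Cg) (Cg := Cg) (o := o) (J := J) (P := P)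
      ho hE1 hCP0 hCR hA1 hA2 hDt
      (hκ1.trans (mul_le_mul_of_nonneg_left n1 hcs.le)) hJo hPo gE3 ?_ ?_ ?_ ?_ ?_ ?_
    · rw [div_le_iff₀ (Real.exp_pos _), mul_comm _ (Real.exp _)]
      refine hcl.trans ?_
      apply mul_le_mul_of_nonneg_left _ (Real.exp_pos _).le
      rw [hJdef, hPdef]
      exact good_window (Rc := fun n => (((Pb q a Q b Y).filter
        (fun h => R2 y z (n + h))).card)) (T := E ^ 3) hb hqQ u1.2.1 s11 hQz
    · intro j hj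
      obtain ⟨k1, k2, k3⟩ := Finset.mem_filter.1 (hJG hj)
      have := hSLp z y w u1 u2 u3 b (hQ ▸ hb) P (by rw [← ho]; exact hPo.trans gL1) j
        (hjP j hj) (hsJ j hj) (hQ ▸ k2) (hQ ▸ k3)
      rw [← hQ, ← ho] at this
      exact this
    · intro j hj j' hj' hne
      have := b3 P (by rw [← ho]; exact hPo.trans gE4) j j' (hjP j hj) (hjP j' hj') hne
        (hsJJ j hj j' hj')
      rw [← ho] at this
      refine le_trans (Finset.sum_le_sum_of_subset_of_nonneg ?_ (fun n _ _ => sq_nonneg _)) this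
      intro n hn
      obtain ⟨t1, t2, t3⟩ := Finset.mem_filter.1 hn
      have t4 := (mem_NQ t1).1
      exact Finset.mem_filter.2 ⟨t1, AT_kill t4 u1.2.1 t2, AT_kill t4 u1.2.1 t3⟩
    · have := hKQ E z x y (by omega) u1 Q b (hIq b hb) P hsP
        (by rw [← ho]; exact hPo.trans gLK)
      refine le_trans (Finset.sum_le_sum fun n hn => ?_) this
      apply mul_le_mul_of_nonneg_left _ (sq_nonneg _)
      have t4 := (mem_NQ hn).1
      have : (P.filter (fun h => AT E (n + h))).card ≤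
          (P.filter (fun h => (n + h).Prime ∧ Rg y z (n + h + 2))).card := by
        apply Finset.card_le_card
        intro h hh
        obtain ⟨t1, t2⟩ := Finset.mem_filter.1 hh
        exact Finset.mem_filter.2 ⟨t1, AT_kill t4 u1.2.1 t2⟩
      exact_mod_cast this
    · have e1 := (abs_le.1 i2).2
      have e2 : Real.exp (-(c2 * E)) ≤ 1 := Real.exp_le_one_iff.2 (by
        have : 0 ≤ c2 * E := by positivity
        linarith)
      have e3 : Real.exp (-(c2 * E)) * XQ x Q ≤ XQ x Q := by nlinarith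
      have e4 : XQ x Q ≤ XQ x Q * Dt2 E z y P := le_mul_of_one_le_right hX0 hDt
      have e5 : ∑ n ∈ NQ x Q b, Wt2 E z y P n ^ 2 - XQ x Q * Dt2 E z y P ≤
        Real.exp (-(c2 * E)) * XQ x Q := e1
      linarith
    · have := (hRC E z x y (by omega) u1 Q b (hIq b hb) P
        (by rw [← ho]; exact hPo.trans gE4)).1 hsP
      rw [← ho] at this
      exact this
    · intro n hn hcard
      exact hSU E z x y (by omega) u1 (mE E) (qE E) v1 v9 v7 v10 P hPy n (mem_NQ hn).2.1 hcard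
  have hsum := Finset.sum_le_sum key
  have hs1 : ∑ _b ∈ range Q, XQ x Q / (2 * A) / Real.exp ((E : ℝ) ^ 2 / 2) =
      31 * x / (2 * A) / Real.exp ((E : ℝ) ^ 2 / 2) := by
    rw [← Finset.sum_div, ← Finset.sum_div, sum_XQ hQ0]
  have hs2 := sum_NQ (x := x) hQ0 (fun n => m + 1 ≤ ((Icc 1 Y).filter (fun h => AT E (n + h))).card ∧
        ∀ h ∈ Icc 1 Y, AT E (n + h) → n + h ≡ a [MOD q])
  rw [hs1] at hsum
  calc 31 / (2 * A) / Real.exp ((E : ℝ) ^ 2 / 2) * x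
      = 31 * x / (2 * A) / Real.exp ((E : ℝ) ^ 2 / 2) := by ring
    _ ≤ _ := hsum
    _ = _ := by convert hs2

end Pool.Agent.Helper76.TW
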