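import Pool.Agent.Helper88.TW.TR
import Pool.Agent.Helper88.TW.WT
import Pool.Agent.Helper88.TW.TL
import Pool.Agent.Helper88.TW.KQ
import Pool.Agent.Helper88.TW.ER
import Pool.Agent.Helper88.TW.LB
import Pool.Agent.Helper88.TW.EX
import Pool.Agent.Helper77.TW.TG2
import Pool.Agent.Helper62.TW.S2
import Pool.Agent.Helper13.TW.CO2
import Pool.Agent.Helper94.TW.RC2
import Pool.Agent.Helper36.TW.SU2
import Pool.Agent.Helper36.TW.JP
import Pool.Agent.Helper35.TW.EB2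
import Pool.Agent.Helper14.TW.BT2
import Pool.Agent.Helper96.TW.PC
import Pool.Agent.Helper86.TW.SB
import Pool.Agent.Helper85.TW.FN
import Pool.Agent.Helper57.TW.LBB
import Pool.Agent.Helper57.TW.SL
import Pool.Agent.Helper57.TW.Main
import Pool.Agent.Helper23.TW.Names
import Pool.Agent.Helper90.TW.ER3
import Pool.Agent.Helper40.TW.CM2
import Pool.Agent.Helper76.TW.PK

/-! # T74: assembly -/

set_option autoImplicit false

namespace Pool.Agent.Helper76.TW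

theorem mTR2 : StmtTR2 := Pool.Agent.Helper88.TW.tr
theorem mTLQ : StmtTLQ := Pool.Agent.Helper88.TW.tlq
theorem mTG2 : StmtTG2 := Pool.Agent.Helper77.TW.tg2 mTR2 mTLQ
theorem mS2 : StmtS2 := Pool.Agent.Helper62.TW.s2 mTG2
theorem mGT2 : StmtGT2 := Pool.Agent.Helper62.TW.gt2 mTG2
theorem mKQ2 : StmtKQ2 := Pool.Agent.Helper88.TW.kq2 mS2 mGT2
theorem mBT2 : StmtBT2 := Pool.Agent.Helper14.TW.bt2 mTG2
theorem mCO2 : StmtCO2 := Pool.Agent.Helper13.TW.co2 mTG2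
theorem mRC2 : StmtRC2 := Pool.Agent.Helper94.TW.rc2 mTG2
theorem mSU2 : StmtSU2 := Pool.Agent.Helper36.TW.su2
theorem mEB2 : StmtEB2 := Pool.Agent.Helper35.TW.eb2 mTLQ
theorem mER2 : StmtER2 := Pool.Agent.Helper88.TW.er mEB2 Pool.Agent.Helper23.TW.mRT76
theorem mEX2 : StmtEX2 := Pool.Agent.Helper88.TW.ex mTLQ mRC2 mSU2
theorem mPC : StmtPC := Pool.Agent.Helper96.TW.pc
theorem mJP : StmtJP := Pool.Agent.Helper36.TW.jp mPC
theorem mSB : StmtSB := Pool.Agent.Helper86.TW.sb mPC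
theorem mL2 : StmtL2 := Pool.Agent.Helper57.TW.mL2
theorem mLBB : StmtLBB := Pool.Agent.Helper57.TW.lbb mL2 mBT2

theorem mER3 : StmtER3 := Pool.Agent.Helper90.TW.er3 mTLQ mER2
theorem mCM2 : StmtCM2 := Pool.Agent.Helper40.TW.cm2
theorem mLB2 : StmtLB2 := Pool.Agent.Helper88.TW.lb mER3 mCO2 mCM2
theorem mSL : StmtSL := Pool.Agent.Helper57.TW.sl mLBB mLB2 mBT2 mEX2
theorem mPK : StmtPK := pk mSL mS2 mKQ2 mBT2 mRC2 mSU2 mJP

/-- the main theorem -/
theorem mFN : StmtFN := Pool.Agent.Helper85.TW.fn mPK mSB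

end Pool.Agent.Helper76.TW
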