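import Pool.Agent.Helper76.TW.Goals

/-! # T74: the weighted counting -/

set_option autoImplicit false

open Finset Filter Topology

open scoped Classical

namespace Pool.Agent.Helper76.TW

theorem alg {N m : ℕ} {A : ℝ} (hA : 1 ≤ A) :
    (N : ℝ) - m - (N : ℝ) * ((N : ℝ) - 1) / A ≤ if m + 1 ≤ N then A else 0 := by
  have hA0 : 0 < A := by linarith
  have hN0 : (0 : ℝ) ≤ (N : ℝ) * ((N : ℝ) - 1) := by
    rcases Nat.eq_zero_or_pos N with h | h
    · subst h; simp
    · have : (1 : ℝ) ≤ N := by exact_mod_cast h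
      exact mul_nonneg (by linarith) (by linarith)
  have hm : (0 : ℝ) ≤ m := Nat.cast_nonneg m
  split_ifs with h
  · have h1 : (N : ℝ) ≤ A + (N : ℝ) * ((N : ℝ) - 1) / A := by
      have h2 : (N : ℝ) * A ≤ A * A + (N : ℝ) * ((N : ℝ) - 1) := by
        rcases Nat.lt_or_ge N 2 with h3 | h3
        · interval_cases N
          · simp; positivity
          · norm_num
            nlinarith
        · have h4 : (2 : ℝ) ≤ N := by exact_mod_cast h3
          nlinarith [sq_nonneg (A - (N : ℝ) / 2)]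
      have h5 : A + (N : ℝ) * ((N : ℝ) - 1) / A = (A * A + (N : ℝ) * ((N : ℝ) - 1)) / A := by
        field_simp
      rw [h5, le_div_iff₀ hA0]
      exact h2
    linarith
  · have h1 : (N : ℝ) ≤ m := by exact_mod_cast (by omega : N ≤ m)
    have h2 : 0 ≤ (N : ℝ) * ((N : ℝ) - 1) / A := div_nonneg hN0 hA0.le
    linarith

/-- the number of good `n`, from the weighted moments -/
theorem wcount {F : Finset ℕ} {W : ℕ → ℝ} {N K R : ℕ → ℕ} {m T : ℕ} {XD c r CP A η S B : ℝ}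
    (hW : ∀ n ∈ F, 0 ≤ W n) (hA : 1 ≤ A) (hT : 0 < T)
    (h1 : c * r * XD ≤ ∑ n ∈ F, W n * (N n : ℝ))
    (h2 : ∑ n ∈ F, W n * ((N n : ℝ) * ((N n : ℝ) - 1)) ≤ CP * r ^ 2 * XD)
    (h3 : ∑ n ∈ F, W n * (K n : ℝ) ≤ η * XD)
    (h4 : ∑ n ∈ F, W n ≤ 2 * XD)
    (h5 : ∑ n ∈ F, W n * (R n : ℝ) ≤ S * XD)
    (hB : ∀ n ∈ F, R n ≤ T → W n ≤ B) :
    XD * ((c * r - 2 * m - CP * r ^ 2 / A) / A - η - S / T) ≤
      B * ((F.filter (fun n => m + 1 ≤ N n ∧ K n = 0 ∧ R n ≤ T)).card : ℝ) := by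
  have hA0 : 0 < A := by linarith
  have hT0 : (0 : ℝ) < T := by exact_mod_cast hT
  have hm : (0 : ℝ) ≤ m := Nat.cast_nonneg m
  have e1 : ∑ n ∈ F.filter (fun n => m + 1 ≤ N n ∧ K n = 0 ∧ R n ≤ T), W n ≤
      B * ((F.filter (fun n => m + 1 ≤ N n ∧ K n = 0 ∧ R n ≤ T)).card : ℝ) := by
    rw [mul_comm, ← nsmul_eq_mul, ← Finset.sum_const]
    refine Finset.sum_le_sum fun n hn => ?_
    obtain ⟨g1, g2, g3, g4⟩ := Finset.mem_filter.1 hn
    exact hB n g1 g4
  refine le_trans ?_ e1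
  have e2 : ∀ n ∈ F, W n * ((N n : ℝ) - m - (N n : ℝ) * ((N n : ℝ) - 1) / A) / A
      - W n * (K n : ℝ) - W n * (R n : ℝ) / T ≤
      if m + 1 ≤ N n ∧ K n = 0 ∧ R n ≤ T then W n else 0 := by
    intro n hn
    have w0 := hW n hn
    have a1 := alg (N := N n) (m := m) hA
    have k0 : (0 : ℝ) ≤ K n := Nat.cast_nonneg _
    have r0 : (0 : ℝ) ≤ R n := Nat.cast_nonneg _
    have a2 : W n * ((N n : ℝ) - m - (N n : ℝ) * ((N n : ℝ) - 1) / A) / A ≤
        W n * (if m + 1 ≤ N n then A else 0) / A := by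
      apply div_le_div_of_nonneg_right _ hA0.le
      exact mul_le_mul_of_nonneg_left a1 w0
    have a3 : W n * (if m + 1 ≤ N n then A else 0) / A = if m + 1 ≤ N n then W n else 0 := by
      split_ifs
      · field_simp
      · simp
    rw [a3] at a2
    have a4 : 0 ≤ W n * (K n : ℝ) := mul_nonneg w0 k0
    have a5 : 0 ≤ W n * (R n : ℝ) / T := by positivity
    by_cases g : m + 1 ≤ N n ∧ K n = 0 ∧ R n ≤ T
    · rw [if_pos g]
      rw [if_pos g.1] at a2
      linarith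
    · rw [if_neg g]
      by_cases g1 : m + 1 ≤ N n
      · rw [if_pos g1] at a2
        by_cases g2 : K n = 0
        · have g3 : T < R n := by
            by_contra hcon
            exact g ⟨g1, g2, by omega⟩
          have g4 : (T : ℝ) ≤ R n := by exact_mod_cast g3.le
          have g5 : W n ≤ W n * (R n : ℝ) / T := by
            rw [le_div_iff₀ hT0]
            exact mul_le_mul_of_nonneg_left g4 w0
          linarith
        · have g3 : (1 : ℝ) ≤ K n := by exact_mod_cast Nat.one_le_iff_ne_zero.2 g2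
          have g4 : W n ≤ W n * (K n : ℝ) := le_mul_of_one_le_right w0 g3
          linarith
      · rw [if_neg g1] at a2
        linarith
  have e3 := Finset.sum_le_sum e2
  rw [← Finset.sum_filter, Finset.sum_sub_distrib, Finset.sum_sub_distrib, ← Finset.sum_div,
    ← Finset.sum_div] at e3
  refine le_trans ?_ e3
  have e4 : ∑ n ∈ F, W n * ((N n : ℝ) - m - (N n : ℝ) * ((N n : ℝ) - 1) / A) =
      ∑ n ∈ F, W n * (N n : ℝ) - m * ∑ n ∈ F, W n -
        (∑ n ∈ F, W n * ((N n : ℝ) * ((N n : ℝ) - 1))) / A := by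
    rw [Finset.mul_sum, Finset.sum_div, ← Finset.sum_sub_distrib, ← Finset.sum_sub_distrib]
    refine Finset.sum_congr rfl fun n _ => ?_
    ring
  rw [e4]
  have e5 : (∑ n ∈ F, W n * ((N n : ℝ) * ((N n : ℝ) - 1))) / A ≤ CP * r ^ 2 * XD / A :=
    div_le_div_of_nonneg_right h2 hA0.le
  have e6 : (m : ℝ) * ∑ n ∈ F, W n ≤ m * (2 * XD) := mul_le_mul_of_nonneg_left h4 hm
  have e7 : (∑ n ∈ F, W n * (R n : ℝ)) / T ≤ S * XD / T := div_le_div_of_nonneg_right h5 hT0.le
  have e8 : (c * r * XD - m * (2 * XD) - CP * r ^ 2 * XD / A) / A ≤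
      (∑ n ∈ F, W n * (N n : ℝ) - m * ∑ n ∈ F, W n -
        (∑ n ∈ F, W n * ((N n : ℝ) * ((N n : ℝ) - 1))) / A) / A :=
    div_le_div_of_nonneg_right (by linarith) hA0.le
  have e9 : XD * ((c * r - 2 * m - CP * r ^ 2 / A) / A - η - S / T) =
      (c * r * XD - m * (2 * XD) - CP * r ^ 2 * XD / A) / A - η * XD - S * XD / T := by
    ring
  rw [e9]
  linarith

end Pool.Agent.Helper76.TW
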