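import Pool.Agent.Helper76.TW.Goals

/-! # T74: the modulus and the points of the window -/

set_option autoImplicit false

open Finset Filter Topology

open scoped Classical

namespace Pool.Agent.Helper76.TW

open Pool.Agent.Helper88.PP (pr Rg om)
open Pool.Agent.Helper88.GM (NI XI)

theorem Qm_dvd_left (q p₁ w : ℕ) : q ∣ Qm q p₁ w := Dvd.intro _ rfl

theorem prod_pos' (q p₁ w : ℕ) :
    0 < ∏ p ∈ (Icc 1 w).filter (fun p => p.Prime ∧ p ≠ p₁ ∧ ¬ p ∣ q), p :=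
  Finset.prod_pos fun _ hp => (Finset.mem_filter.1 hp).2.1.pos

theorem Qm_pos {q : ℕ} (hq : 1 ≤ q) (p₁ w : ℕ) : 0 < Qm q p₁ w :=
  Nat.mul_pos hq (prod_pos' q p₁ w)

theorem dvd_Qm {q p₁ w p : ℕ} (hp : p.Prime) (h1 : p ≠ p₁) (hw : p ≤ w) : p ∣ Qm q p₁ w := by
  by_cases h : p ∣ q
  · exact h.trans (Qm_dvd_left q p₁ w)
  · refine Dvd.dvd.mul_left (Finset.dvd_prod_of_mem (fun p => p) ?_) q
    exact Finset.mem_filter.2 ⟨Finset.mem_Icc.2 ⟨hp.one_lt.le, hw⟩, hp, h1, h⟩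

theorem le_of_dvd_Qm {q p₁ w p : ℕ} (hq : 1 ≤ q) (hp : p.Prime) (h : p ∣ Qm q p₁ w) :
    p ≤ q ∨ p ≤ w := by
  rcases (Nat.Prime.dvd_mul hp).1 h with h1 | h1
  · exact Or.inl (Nat.le_of_dvd hq h1)
  · obtain ⟨r, hr, h2⟩ := (Nat.Prime.prime hp).exists_mem_finset_dvd h1
    obtain ⟨h3, h4⟩ := Finset.mem_filter.1 hr
    rw [(Nat.prime_dvd_prime_iff_eq hp h4.1).1 h2]
    exact Or.inr (Finset.mem_Icc.1 h3).2

theorem Qm_le (q p₁ w : ℕ) : Qm q p₁ w ≤ q * primorial w := by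
  unfold Qm
  refine Nat.mul_le_mul_left q ?_
  unfold primorial
  refine Finset.prod_le_prod_of_subset_of_one_le' ?_ ?_
  · intro p hp
    obtain ⟨h3, h4⟩ := Finset.mem_filter.1 hp
    exact Finset.mem_filter.2 ⟨Finset.mem_range.2 (by have := (Finset.mem_Icc.1 h3).2; omega), h4.1⟩
  · intro p hp _
    exact (Finset.mem_filter.1 hp).2.one_lt.le

/-- the points `h ≤ Y` such that `b + h`, `b + h + 2` are prime to `Q` -/
noncomputable def Gb (Q b Y : ℕ) : Finset ℕ :=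
  (Icc 1 Y).filter (fun h => Nat.Coprime (b + h) Q ∧ Nat.Coprime (b + h + 2) Q)

/-- the points of `Gb` in the class `a` modulo `q` -/
noncomputable def Jb (q a Q b Y : ℕ) : Finset ℕ := (Gb Q b Y).filter (fun h => b + h ≡ a [MOD q])

/-- the other points -/
noncomputable def Pb (q a Q b Y : ℕ) : Finset ℕ :=
  (Gb Q b Y).filter (fun h => ¬ b + h ≡ a [MOD q])

theorem sep_Gb {Q b Y y : ℕ} (h3 : 3 ∣ Q) (hY : Y + 2 ≤ y) {B : Finset ℕ} (hB : B ⊆ Gb Q b Y) :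
    Sep y B := by
  have key : ∀ i ∈ B, 1 ≤ i ∧ i ≤ Y ∧ (b + i) % 3 = 2 := by
    intro i hi
    obtain ⟨h1, h2, h4⟩ := Finset.mem_filter.1 (hB hi)
    obtain ⟨h5, h6⟩ := Finset.mem_Icc.1 h1
    refine ⟨h5, h6, ?_⟩
    have a1 : ¬ 3 ∣ b + i := by
      intro hd
      have := Nat.dvd_gcd hd h3
      rw [h2] at this
      omega
    have a2 : ¬ 3 ∣ b + i + 2 := by
      intro hd
      have := Nat.dvd_gcd hd h3
      rw [h4] at this
      omega
    omega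
  refine ⟨fun i hi => ⟨(key i hi).1, by have := (key i hi).2.1; omega⟩, fun i hi j hj => ?_⟩
  have k1 := (key i hi).2.2
  have k2 := (key j hj).2.2
  omega

theorem mem_NQ {x Q b n : ℕ} (h : n ∈ NQ x Q b) : x < n ∧ n ≤ 32 * x ∧ n % Q = b := by
  unfold NQ NI at h
  obtain ⟨h1, h2⟩ := Finset.mem_filter.1 h
  obtain ⟨h3, h4⟩ := Finset.mem_Ioc.1 h1
  exact ⟨h3, h4, h2⟩

theorem NQ_modEq {x Q b n : ℕ} (hb : b < Q) (h : n ∈ NQ x Q b) : n ≡ b [MOD Q] := by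
  obtain ⟨_, _, h3⟩ := mem_NQ h
  unfold Nat.ModEq
  rw [h3, Nat.mod_eq_of_lt hb]

/-- the integers `n + h` with `AT` are at the points of `Gb` -/
theorem AT_Gb {E x z Q b n h Y : ℕ} (hb : b < Q) (hn : n ∈ NQ x Q b) (hz : z ^ E ≤ x) (hzx : z ≤ x)
    (hQ : ∀ p : ℕ, p.Prime → p ∣ Q → p ≤ z) (hh : h ∈ Icc 1 Y) (hAT : AT E (n + h)) :
    h ∈ Gb Q b Y := by
  obtain ⟨g1, g2, g3⟩ := mem_NQ hn
  have g4 := NQ_modEq hb hn
  obtain ⟨a1, a2⟩ := hAT
  refine Finset.mem_filter.2 ⟨hh, ?_, ?_⟩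
  · rw [Nat.coprime_comm]
    apply Nat.coprime_of_dvd
    intro p hp hpQ hpd
    have e1 : n + h ≡ b + h [MOD p] := (Nat.ModEq.add_right h g4).of_dvd hpQ
    have e2 : p ∣ n + h := (e1.dvd_iff (dvd_refl p)).2 hpd
    have e3 := (Nat.prime_dvd_prime_iff_eq hp a1).1 e2
    have e4 := hQ p hp hpQ
    omega
  · rw [Nat.coprime_comm]
    apply Nat.coprime_of_dvd
    intro p hp hpQ hpd
    have e1 : n + h + 2 ≡ b + h + 2 [MOD p] :=
      Nat.ModEq.add_right 2 ((Nat.ModEq.add_right h g4).of_dvd hpQ)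
    have e2 : p ∣ n + h + 2 := (e1.dvd_iff (dvd_refl p)).2 hpd
    refine a2 p hp ?_ e2
    have e4 := hQ p hp hpQ
    calc p ^ E ≤ z ^ E := Nat.pow_le_pow_left e4 E
      _ ≤ x := hz
      _ ≤ n + h := by omega

/-- the killed points -/
theorem AT_kill {E x z y n h : ℕ} (hn : x < n) (hz : z ^ E ≤ x) (hAT : AT E (n + h)) :
    (n + h).Prime ∧ Rg y z (n + h + 2) := by
  refine ⟨hAT.1, fun p hp hd => ?_⟩
  unfold pr at hp
  obtain ⟨h1, h2⟩ := Finset.mem_filter.1 hp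
  refine hAT.2 p h2 ?_ hd
  calc p ^ E ≤ z ^ E := Nat.pow_le_pow_left (Finset.mem_Ioc.1 h1).2 E
    _ ≤ x := hz
    _ ≤ n + h := by omega

theorem XQ_nonneg (x Q : ℕ) : 0 ≤ XQ x Q := by
  unfold XQ XI
  positivity

/-- the total over the classes -/
theorem sum_XQ {x Q : ℕ} (hQ : 0 < Q) : ∑ _b ∈ range Q, XQ x Q = 31 * x := by
  rw [Finset.sum_const, card_range, nsmul_eq_mul]
  unfold XQ XI
  have h0 : (Q : ℝ) ≠ 0 := by exact_mod_cast hQ.ne'
  have h1 : 32 * x - x = 31 * x := by omega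
  rw [h1, mul_div_cancel₀ _ h0]
  push_cast
  ring

/-- the classes are a partition -/
theorem sum_NQ {x Q : ℕ} (hQ : 0 < Q) (p : ℕ → Prop) :
    ∑ b ∈ range Q, (((NQ x Q b).filter p).card : ℝ) = (((Ioc x (32 * x)).filter p).card : ℝ) := by
  rw [← Nat.cast_sum]
  congr 1
  rw [Finset.card_eq_sum_card_fiberwise (f := fun n => n % Q) (t := range Q)
    (fun n _ => Finset.mem_coe.2 (Finset.mem_range.2 (Nat.mod_lt n hQ)))]
  refine Finset.sum_congr rfl fun b _ => ?_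
  congr 1
  ext n
  unfold NQ NI
  simp only [Finset.mem_filter]
  tauto

end Pool.Agent.Helper76.TW
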