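import Pool.Agent.Helper76.TW.PKa
import Pool.Agent.Helper76.TW.PKb
import Pool.Agent.Helper88.TU.Size

/-! # T74: one class -/

set_option autoImplicit false

open Finset Filter Topology

open scoped Classical

namespace Pool.Agent.Helper76.TW

open Pool.Agent.Helper88.PP (pr Rg om)
open Pool.Agent.Helper88.TU (Su size)

theorem card_Jb (q a Q b Y : ℕ) : (Jb q a Q b Y) = (Icc 1 Y).filter (fun h => b + h ≡ a [MOD q] ∧
    Nat.Coprime (b + h) Q ∧ Nat.Coprime (b + h + 2) Q) := by
  unfold Jb Gb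
  rw [Finset.filter_filter]
  ext h
  simp only [Finset.mem_filter]
  tauto

/-- first moment -/
theorem mom1 {F J : Finset ℕ} {W : ℕ → ℝ} {p : ℕ → ℕ → Prop} {V : ℝ}
    (h : ∀ j ∈ J, V ≤ ∑ n ∈ F.filter (fun n => p n j), W n) :
    (J.card : ℝ) * V ≤ ∑ n ∈ F, W n * ((J.filter (fun j => p n j)).card : ℝ) := by
  have e1 : ∑ n ∈ F, W n * ((J.filter (fun j => p n j)).card : ℝ) =
      ∑ j ∈ J, ∑ n ∈ F.filter (fun n => p n j), W n := by
    have e2 : ∀ n ∈ F, W n * ((J.filter (fun j => p n j)).card : ℝ) =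
        ∑ j ∈ J, if p n j then W n else 0 := by
      intro n _
      rw [← Finset.sum_filter, Finset.sum_const, nsmul_eq_mul, mul_comm]
    rw [Finset.sum_congr rfl e2, Finset.sum_comm]
    refine Finset.sum_congr rfl fun j _ => ?_
    rw [Finset.sum_filter]
  rw [e1, ← nsmul_eq_mul, ← Finset.sum_const]
  exact Finset.sum_le_sum h

/-- second moment -/
theorem mom2 {F J : Finset ℕ} {W : ℕ → ℝ} {p : ℕ → ℕ → Prop} {V : ℝ} (hV : 0 ≤ V)
    (h : ∀ j ∈ J, ∀ j' ∈ J, j ≠ j' → ∑ n ∈ F.filter (fun n => p n j ∧ p n j'), W n ≤ V) :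
    ∑ n ∈ F, W n * (((J.filter (fun j => p n j)).card : ℝ) *
      (((J.filter (fun j => p n j)).card : ℝ) - 1)) ≤ (J.card : ℝ) ^ 2 * V := by
  have e0 : ∀ n, (((J.filter (fun j => p n j)).card : ℝ) *
      (((J.filter (fun j => p n j)).card : ℝ) - 1)) =
      ((J.offDiag.filter (fun t => p n t.1 ∧ p n t.2)).card : ℝ) := by
    intro n
    have e1 : J.offDiag.filter (fun t => p n t.1 ∧ p n t.2) =
        (J.filter (fun j => p n j)).offDiag := by
      ext ⟨i, j⟩
      simp only [Finset.mem_filter, Finset.mem_offDiag]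
      tauto
    rw [e1, Finset.offDiag_card]
    set s := (J.filter (fun j => p n j)).card
    rw [Nat.cast_sub (by nlinarith [Nat.zero_le s])]
    push_cast
    ring
  have e1 : ∑ n ∈ F, W n * (((J.filter (fun j => p n j)).card : ℝ) *
      (((J.filter (fun j => p n j)).card : ℝ) - 1)) =
      ∑ t ∈ J.offDiag, ∑ n ∈ F.filter (fun n => p n t.1 ∧ p n t.2), W n := by
    have e2 : ∀ n ∈ F, W n * (((J.filter (fun j => p n j)).card : ℝ) *
        (((J.filter (fun j => p n j)).card : ℝ) - 1)) =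
        ∑ t ∈ J.offDiag, if p n t.1 ∧ p n t.2 then W n else 0 := by
      intro n _
      rw [e0, ← Finset.sum_filter, Finset.sum_const, nsmul_eq_mul, mul_comm]
    rw [Finset.sum_congr rfl e2, Finset.sum_comm]
    refine Finset.sum_congr rfl fun t _ => ?_
    rw [Finset.sum_filter]
  rw [e1]
  calc ∑ t ∈ J.offDiag, ∑ n ∈ F.filter (fun n => p n t.1 ∧ p n t.2), W n
      ≤ ∑ t ∈ J.offDiag, V := by
        refine Finset.sum_le_sum fun t ht => ?_
        obtain ⟨h1, h2, h3⟩ := Finset.mem_offDiag.1 ht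
        exact h _ h1 _ h2 h3
    _ = (J.offDiag.card : ℝ) * V := by rw [Finset.sum_const, nsmul_eq_mul]
    _ ≤ (J.card : ℝ) ^ 2 * V := by
        refine mul_le_mul_of_nonneg_right ?_ hV
        have : J.offDiag.card ≤ J.card ^ 2 := by
          rw [Finset.offDiag_card, sq]
          exact Nat.sub_le _ _
        exact_mod_cast this

/-- the good integers are in a window of the required form -/
theorem good_window {E x z Q b Y m q a T : ℕ} {Rc : ℕ → ℕ} (hb : b < Q) (hqQ : q ∣ Q)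
    (hz : z ^ E ≤ x) (hzx : z ≤ x) (hQ : ∀ p : ℕ, p.Prime → p ∣ Q → p ≤ z) :
    (((NQ x Q b).filter (fun n => m + 1 ≤ ((Jb q a Q b Y).filter (fun j => AT E (n + j))).card ∧
      ((Pb q a Q b Y).filter (fun j => AT E (n + j))).card = 0 ∧ Rc n ≤ T)).card : ℝ) ≤
    (((NQ x Q b).filter (fun n => m + 1 ≤ ((Icc 1 Y).filter (fun h => AT E (n + h))).card ∧
      ∀ h ∈ Icc 1 Y, AT E (n + h) → n + h ≡ a [MOD q])).card : ℝ) := by
  have key : (NQ x Q b).filter (fun n => m + 1 ≤ ((Jb q a Q b Y).filter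
      (fun j => AT E (n + j))).card ∧
      ((Pb q a Q b Y).filter (fun j => AT E (n + j))).card = 0 ∧ Rc n ≤ T) ⊆
    (NQ x Q b).filter (fun n => m + 1 ≤ ((Icc 1 Y).filter (fun h => AT E (n + h))).card ∧
      ∀ h ∈ Icc 1 Y, AT E (n + h) → n + h ≡ a [MOD q]) := by
    intro n hn
    obtain ⟨g1, g2, g3, _⟩ := Finset.mem_filter.1 hn
    refine Finset.mem_filter.2 ⟨g1, ?_, ?_⟩
    · refine g2.trans (Finset.card_le_card ?_)
      refine Finset.filter_subset_filter _ ?_
      unfold Jb Gb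
      exact (Finset.filter_subset _ _).trans (Finset.filter_subset _ _)
    · intro h hh hAT
      have h1 := AT_Gb hb g1 hz hzx hQ hh hAT
      have h2 : b + h ≡ a [MOD q] := by
        by_contra hcon
        rw [Finset.card_eq_zero, Finset.filter_eq_empty_iff] at g3
        exact g3 (Finset.mem_filter.2 ⟨h1, hcon⟩) hAT
      have h3 : n + h ≡ b + h [MOD q] := (Nat.ModEq.add_right h (NQ_modEq hb g1)).of_dvd hqQ
      exact h3.trans h2
  exact_mod_cast Finset.card_le_card key

end Pool.Agent.Helper76.TW
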