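import Pool.Agent.Helper76.TW.PKc
import Pool.Agent.Helper76.TW.PKd

/-! # T74: one class, with all numerical parameters -/

set_option autoImplicit false

open Finset Filter Topology

open scoped Classical

namespace Pool.Agent.Helper76.TW

open Pool.Agent.Helper88.PP (pr Rg om)
open Pool.Agent.Helper88.TU (Su size)

theorem oneclass {E x z y Q b m : ℕ} {cs CP CR A r1 Cg o : ℝ} {J P : Finset ℕ}
    (ho : o = om y z ^ 2) (hE : 1 ≤ E) (hCP : 0 < CP) (hCR : 0 < CR) (hA : 1 ≤ A)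
    (hA' : 4 * CP * r1 ≤ cs * A)
    (hDt : 1 ≤ Dt2 E z y P)
    (hR0 : 4 * ((m : ℝ) + 1) ≤ cs * (J.card * (o / E)))
    (hR1 : J.card * (o / E) ≤ r1)
    (hPo : P.card * o ≤ Cg * E)
    (hEA : 4 * A * (CR * (Cg + 1)) ≤ (E : ℝ) ^ 2)
    (h1 : ∀ j ∈ J, cs * (XQ x Q * Dt2 E z y P * (o / E)) ≤
      ∑ n ∈ (NQ x Q b).filter (fun n => AT E (n + j)), Wt2 E z y P n ^ 2)
    (h2 : ∀ j ∈ J, ∀ j' ∈ J, j ≠ j' →
      ∑ n ∈ (NQ x Q b).filter (fun n => AT E (n + j) ∧ AT E (n + j')), Wt2 E z y P n ^ 2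
        ≤ CP * (XQ x Q * Dt2 E z y P) * (o / E) ^ 2)
    (h3 : ∑ n ∈ NQ x Q b, Wt2 E z y P n ^ 2 * ((P.filter (fun h => AT E (n + h))).card : ℝ)
      ≤ 1 / (4 * A) * (XQ x Q * Dt2 E z y P))
    (h4 : ∑ n ∈ NQ x Q b, Wt2 E z y P n ^ 2 ≤ 2 * (XQ x Q * Dt2 E z y P))
    (h5 : ∑ n ∈ NQ x Q b, Wt2 E z y P n ^ 2 * ((P.filter (fun h => R2 y z (n + h))).card : ℝ)
      ≤ CR * (XQ x Q * Dt2 E z y P) * (P.card * o + E))
    (h6 : ∀ n ∈ NQ x Q b, (P.filter (fun h => R2 y z (n + h))).card ≤ E ^ 3 →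
      Wt2 E z y P n ^ 2 ≤ Real.exp ((E : ℝ) ^ 2 / 2)) :
    XQ x Q / (2 * A) ≤ Real.exp ((E : ℝ) ^ 2 / 2) *
      (((NQ x Q b).filter (fun n => m + 1 ≤ (J.filter (fun j => AT E (n + j))).card ∧
        (P.filter (fun j => AT E (n + j))).card = 0 ∧
        (P.filter (fun h => R2 y z (n + h))).card ≤ E ^ 3)).card : ℝ) := by
  have hE1 : (1 : ℝ) ≤ E := by exact_mod_cast hE
  have hE0 : (0 : ℝ) < E := by linarith
  have hA0 : 0 < A := by linarith
  have ho0 : 0 ≤ o := by rw [ho]; positivity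
  set X := XQ x Q with hX
  set Dt := Dt2 E z y P with hDtdef
  have hX0 : 0 ≤ X := XQ_nonneg x Q
  have hXD : 0 ≤ X * Dt := mul_nonneg hX0 (by linarith)
  set R : ℝ := J.card * (o / E) with hR
  have hRn : 0 ≤ R := by positivity
  have m1 : cs * R * (X * Dt) ≤ ∑ n ∈ NQ x Q b, Wt2 E z y P n ^ 2 *
      ((J.filter (fun j => AT E (n + j))).card : ℝ) := by
    have := mom1 (F := NQ x Q b) (J := J) (W := fun n => Wt2 E z y P n ^ 2)
      (p := fun n j => AT E (n + j)) h1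
    calc cs * R * (X * Dt) = (J.card : ℝ) * (cs * (X * Dt * (o / E))) := by rw [hR]; ring
      _ ≤ _ := this
  have m2 : ∑ n ∈ NQ x Q b, Wt2 E z y P n ^ 2 *
      (((J.filter (fun j => AT E (n + j))).card : ℝ) *
        (((J.filter (fun j => AT E (n + j))).card : ℝ) - 1)) ≤ CP * R ^ 2 * (X * Dt) := by
    have := mom2 (F := NQ x Q b) (J := J) (W := fun n => Wt2 E z y P n ^ 2)
      (p := fun n j => AT E (n + j)) (V := CP * (X * Dt) * (o / E) ^ 2) (by positivity) h2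
    calc _ ≤ (J.card : ℝ) ^ 2 * (CP * (X * Dt) * (o / E) ^ 2) := this
      _ = CP * R ^ 2 * (X * Dt) := by rw [hR]; ring
  have m5 : ∑ n ∈ NQ x Q b, Wt2 E z y P n ^ 2 *
      ((P.filter (fun h => R2 y z (n + h))).card : ℝ) ≤ (CR * ((Cg + 1) * E)) * (X * Dt) := by
    refine h5.trans ?_
    have : P.card * o + E ≤ (Cg + 1) * E := by linarith
    calc CR * (X * Dt) * (P.card * o + E) ≤ CR * (X * Dt) * ((Cg + 1) * E) :=
          mul_le_mul_of_nonneg_left this (by positivity)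
      _ = _ := by ring
  have key := wcount (F := NQ x Q b) (W := fun n => Wt2 E z y P n ^ 2)
    (N := fun n => (J.filter (fun j => AT E (n + j))).card)
    (K := fun n => (P.filter (fun j => AT E (n + j))).card)
    (R := fun n => (P.filter (fun h => R2 y z (n + h))).card) (m := m) (T := E ^ 3)
    (fun n _ => sq_nonneg _) hA (by positivity) m1 m2 h3 h4 m5 h6
  refine le_trans ?_ key
  -- the bracket
  have e1 : CP * R ^ 2 / A ≤ cs * R / 4 := by
    rw [div_le_div_iff₀ hA0 (by norm_num)]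
    have : 4 * CP * R ≤ cs * A := by
      refine le_trans ?_ hA'
      exact mul_le_mul_of_nonneg_left hR1 (by positivity)
    calc CP * R ^ 2 * 4 = (4 * CP * R) * R := by ring
      _ ≤ (cs * A) * R := mul_le_mul_of_nonneg_right this hRn
      _ = cs * R * A := by ring
  have hm0 : (0 : ℝ) ≤ m := Nat.cast_nonneg m
  have e2 : 1 ≤ cs * R - 2 * m - CP * R ^ 2 / A := by linarith
  have e3 : 1 / A ≤ (cs * R - 2 * m - CP * R ^ 2 / A) / A := div_le_div_of_nonneg_right e2 hA0.le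
  have e4 : CR * ((Cg + 1) * E) / ((E ^ 3 : ℕ) : ℝ) ≤ 1 / (4 * A) := by
    push_cast
    rw [div_le_div_iff₀ (by positivity) (by positivity)]
    calc CR * ((Cg + 1) * E) * (4 * A) = (4 * A * (CR * (Cg + 1))) * E := by ring
      _ ≤ (E : ℝ) ^ 2 * E := mul_le_mul_of_nonneg_right hEA hE0.le
      _ = 1 * (E : ℝ) ^ 3 := by ring
  have e5 : 1 / (2 * A) ≤ (cs * R - 2 * m - CP * R ^ 2 / A) / A - 1 / (4 * A) -
      CR * ((Cg + 1) * E) / ((E ^ 3 : ℕ) : ℝ) := by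
    have : 1 / A = 1 / (2 * A) + 1 / (4 * A) + 1 / (4 * A) := by field_simp; norm_num
    linarith
  calc X / (2 * A) = X * 1 * (1 / (2 * A)) := by ring
    _ ≤ X * Dt * (1 / (2 * A)) := by
        apply mul_le_mul_of_nonneg_right _ (by positivity)
        exact mul_le_mul_of_nonneg_left hDt hX0
    _ ≤ _ := mul_le_mul_of_nonneg_left e5 hXD

end Pool.Agent.Helper76.TW
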